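import Pool.Agent.P.MP_a28080_pr.R.GreenA

/-! Parent maps on a blob with an arm. -/

namespace Pool.Agent.P.MP_a28080_pr.R

open Finset

variable {V : Type} [DecidableEq V] {G : SimpleGraph V}

lemma parent_to {B : Finset V} {g : V} (hg : g ∈ B) (hc : (G.induce (B : Set V)).Connected) :
    ∃ f : V → V, f g = g ∧ (∀ v ∈ B, v ≠ g → f v ∈ B ∧ G.Adj v (f v)) ∧
      ∀ v ∈ B, ∃ n, f^[n] v = g ∧ ∀ k < n, f^[k] v ∈ B ∧ f^[k] v ≠ g := by
  obtain ⟨f, hf, -⟩ := exists_parent hg le_rfl hc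
  obtain ⟨h1, h2, h3⟩ := mem_For.mp hf
  have h4 : ∀ v ∈ B, v ≠ g → f v ∈ B ∧ G.Adj v (f v) := fun v hv hne =>
    mem_nbG.mp (h2 v (mem_erase.mpr ⟨hne, hv⟩))
  refine ⟨f, h1 g (notMem_erase _ _), h4, fun v hv => ?_⟩
  obtain ⟨n, hn⟩ := h3 v
  induction n generalizing v with
  | zero => exact ⟨0, by_contra fun h => hn (mem_erase.mpr ⟨h, hv⟩), fun _ h => absurd h (by simp)⟩
  | succ n ih =>
    by_cases h : v = g
    · exact ⟨0, h, fun _ h => absurd h (by simp)⟩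
    · obtain ⟨k, h5, h6⟩ := ih (f v) (h4 v hv h).1 hn
      refine ⟨k + 1, h5, fun j hj => ?_⟩
      cases j with
      | zero => exact ⟨hv, h⟩
      | succ j => exact h6 j (by omega)

lemma parent_two {B A : Finset V} {g a : V} (hg : g ∈ B) (hg' : g ∈ A) (ha : a ∈ A)
    (hBA : ∀ v ∈ B, v ∈ A → v = g) (hB : (G.induce (B : Set V)).Connected)
    (hA : (G.induce (A : Set V)).Connected) :
    ∃ f : V → V, (∀ v ∈ B ∪ A, f v ∈ B ∪ A) ∧ (∀ v ∈ B ∪ A, v ≠ a → G.Adj v (f v)) ∧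
      (∀ v ∈ B ∪ A, ∃ n, f^[n] v = a) ∧ ∀ v ∈ B, ∃ n, f^[n] v = g ∧ ∀ k < n, f^[k] v ∈ B := by
  obtain ⟨f1, -, h1, h2⟩ := parent_to hg hB
  obtain ⟨f2, h3, h4, h5⟩ := parent_to ha hA
  obtain ⟨f, hf⟩ : ∃ f : V → V, f = fun v => if v ∈ A then f2 v else f1 v := ⟨_, rfl⟩
  have e1 : ∀ v, v ∈ B ∧ v ≠ g → f v = f1 v := fun v h => by
    rw [hf]; exact if_neg fun h' => h.2 (hBA v h.1 h')
  have e2 : ∀ v, v ∈ A → f v = f2 v := fun v h => by rw [hf]; exact if_pos h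
  have k1 : ∀ v ∈ B, ∃ n, f^[n] v = g ∧ ∀ k < n, f^[k] v ∈ B := by
    intro v hv
    obtain ⟨n, hn, hk⟩ := h2 v hv
    refine ⟨n, (iter_agree e1 v n hk).trans hn, fun k hkn => ?_⟩
    rw [iter_agree e1 v k fun j hj => hk j (by omega)]
    exact (hk k hkn).1
  have k2 : ∀ v ∈ A, ∃ n, f^[n] v = a := by
    intro v hv
    obtain ⟨n, hn, hk⟩ := h5 v hv
    exact ⟨n, (iter_agree e2 v n fun j hj => (hk j hj).1).trans hn⟩
  have k3 : ∀ v ∈ B ∪ A, v ∉ A → v ∈ B ∧ v ≠ g := fun v hv h =>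
    ⟨(mem_union.mp hv).resolve_right h, fun e => h (e ▸ hg')⟩
  refine ⟨f, fun v hv => ?_, fun v hv hne => ?_, fun v hv => ?_, k1⟩
  · by_cases h : v ∈ A
    · rw [e2 v h]
      by_cases e : v = a
      · rw [e, h3]; exact mem_union_right _ ha
      · exact mem_union_right _ (h4 v h e).1
    · rw [e1 v (k3 v hv h)]
      exact mem_union_left _ (h1 v (k3 v hv h).1 (k3 v hv h).2).1
  · by_cases h : v ∈ A
    · rw [e2 v h]; exact (h4 v h hne).2
    · rw [e1 v (k3 v hv h)]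
      exact (h1 v (k3 v hv h).1 (k3 v hv h).2).2
  · rcases mem_union.mp hv with h | h
    · obtain ⟨n, hn, -⟩ := k1 v h
      obtain ⟨n', hn'⟩ := k2 g hg'
      exact ⟨n' + n, by rw [Function.iterate_add_apply, hn, hn']⟩
    · exact k2 v h

lemma parent_glue {ι : Type} {B A : ι → Finset V} {g a : ι → V} (hg : ∀ i, g i ∈ B i)
    (hg' : ∀ i, g i ∈ A i) (ha : ∀ i, a i ∈ A i) (hBA : ∀ i, ∀ v ∈ B i, v ∈ A i → v = g i)
    (hB : ∀ i, (G.induce (B i : Set V)).Connected) (hA : ∀ i, (G.induce (A i : Set V)).Connected)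
    (hd : ∀ i j v, v ∈ B i ∪ A i → v ∈ B j ∪ A j → i = j) :
    ∃ f : V → V, (∀ i, ∀ v ∈ B i ∪ A i, v ≠ a i → f v ∈ B i ∪ A i ∧ G.Adj v (f v)) ∧
      (∀ i, ∀ v ∈ B i ∪ A i, ∃ n, f^[n] v = a i) ∧
      ∀ i, ∀ v ∈ B i, ∃ n, f^[n] v = g i ∧ ∀ k < n, f^[k] v ∈ B i := by
  classical
  choose F h1 h2 h3 h4 using fun i => parent_two (hg i) (hg' i) (ha i) (hBA i) (hB i) (hA i)
  obtain ⟨f, hf⟩ : ∃ f : V → V, f = fun v =>
    if h : ∃ i, v ∈ B i ∪ A i then F h.choose v else v := ⟨_, rfl⟩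
  have e : ∀ i v, v ∈ B i ∪ A i → f v = F i v := by
    intro i v hv
    have h : ∃ i, v ∈ B i ∪ A i := ⟨i, hv⟩
    rw [hf]
    simp only [dif_pos h]
    rw [hd _ _ v h.choose_spec hv]
  have e2 : ∀ i, ∀ v ∈ B i ∪ A i, ∀ n, f^[n] v = (F i)^[n] v := fun i v hv n =>
    iter_agree (e i) v n fun m _ => by
      induction m with
      | zero => exact hv
      | succ m ih => rw [Function.iterate_succ_apply']; exact h1 i _ (ih (by omega))
  refine ⟨f, fun i v hv hne => ?_, fun i v hv => ?_, fun i v hv => ?_⟩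
  · rw [e i v hv]; exact ⟨h1 i v hv, h2 i v hv hne⟩
  · simpa only [e2 i v hv] using h3 i v hv
  · simpa only [e2 i v (mem_union_left _ hv)] using h4 i v hv

lemma odd_cong {m : ℕ} {x : ℤ} (hm : m % 2 = 1) (hx : x % 2 = 1) (h : (x : ZMod m) = 1)
    (h1 : x.natAbs + 1 < 2 * m) : x = 1 := by
  obtain ⟨k, hk⟩ := (ZMod.intCast_eq_intCast_iff_dvd_sub 1 x m).mp (by simpa using h.symm)
  have h2 : k < 2 := by
    by_contra hc
    have : (m : ℤ) * 2 ≤ m * k := mul_le_mul_of_nonneg_left (by omega) (by omega)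
    omega
  have h3 : -2 < k := by
    by_contra hc
    have : (m : ℤ) * k ≤ m * -2 := mul_le_mul_of_nonneg_left (by omega) (by omega)
    omega
  obtain rfl | rfl | rfl : k = -1 ∨ k = 0 ∨ k = 1 := by omega
  all_goals omega

variable {d m : ℕ} [NeZero d]

lemma walk_cross {a0 : Lab d m} {p q : VV d m} (w : (lampG d m).Walk p q)
    (h : p.2 a0 ≠ q.2 a0) : ∃ x y : BCC d, y ∈ nbL x ∧ lab m x y = a0 ∧
      near w.length p.1 x ∧ near w.length x q.1 := by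
  induction w with
  | nil => exact absurd rfl h
  | @cons a b c hab w ih =>
    rw [SimpleGraph.Walk.length_cons]
    by_cases e : a.2 a0 = b.2 a0
    · obtain ⟨x, y, h1, h2, h3, h4⟩ := ih (e ▸ h)
      exact ⟨x, y, h1, h2, add_comm 1 w.length ▸ (near_of_nb hab.1).trans h3,
        h4.mono (Nat.le_succ _)⟩
    · refine ⟨a.1, b.1, hab.1, by_contra fun hc => e (hab.2 a0 (Ne.symm hc)), near_refl _ _, ?_⟩
      have := near_of_walk (w.map prj)
      rw [SimpleGraph.Walk.length_map] at this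
      exact add_comm 1 w.length ▸ (near_of_nb hab.1).trans this

/-- tubes -/
noncomputable def tube (j : Fin d) (R E : ℕ) : Finset (BCC d) :=
  (Fintype.piFinset fun k => if k = j then Icc (-(R : ℤ)) R else Icc (-(E : ℤ)) E).subtype
    (· ∈ BCC d)

omit [NeZero d] in
lemma mem_tube {j : Fin d} {R E : ℕ} {v : BCC d} (h1 : (v.1 j).natAbs ≤ R)
    (h2 : ∀ k, k ≠ j → (v.1 k).natAbs ≤ E) : v ∈ tube j R E := by
  simp only [tube, mem_subtype, Fintype.mem_piFinset]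
  intro k
  split_ifs with h
  · rw [h, mem_Icc]; omega
  · have := h2 k h
    rw [mem_Icc]; omega

omit [NeZero d] in
lemma card_tube (j : Fin d) (R E : ℕ) : (tube j R E).card ≤ (2 * R + 1) * (2 * E + 1) ^ d := by
  rw [tube, card_subtype]
  refine (card_filter_le _ _).trans ?_
  rw [Fintype.card_piFinset, ← mul_prod_erase _ _ (mem_univ j), if_pos rfl]
  refine Nat.mul_le_mul (by rw [Int.card_Icc]; omega) ?_
  refine (prod_le_pow_card _ _ (2 * E + 1) fun k hk => ?_).trans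
    (Nat.pow_le_pow_right (by omega) (card_erase_le.trans (by simp)))
  rw [if_neg (mem_erase.mp hk).1, Int.card_Icc]
  omega

end Pool.Agent.P.MP_a28080_pr.R
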