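import Pool.Agent.P.MP_a28080_pr.R.Lim

/-! The chain bound with a separate touching relation. -/

namespace Pool.Agent.P.MP_a28080_pr.R

open Finset

variable {V : Type} [DecidableEq V]

lemma chain_bound2 {N W : Finset V} {nb sb : V → Finset V} (hN : N ⊆ W) (hW : ∀ x ∈ N, nb x ⊆ W)
    (hsym : ∀ x y, x ∈ sb y → y ∈ sb x)
    (Φ : V → V → ℝ) (h0 : ∀ x w, 0 ≤ Φ x w) (h1 : ∀ w, 1 ≤ Φ w w)
    (hsup : ∀ w v, 0 ≤ ∑ x ∈ nb v, (Φ v w - Φ x w)) (H : V → V → ℝ)
    (hH : ∀ (W : Finset V) x y, ∑ w ∈ W, Φ x w * Φ y w ≤ H x y) {q q' : V} (hq : q ∈ W)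
    (hq' : q' ∈ W) :
    nf (For N nb) (Chain sb q q') ≤
      (H q q' + (∑ a ∈ W, ∑ b ∈ sb a, H q a * H b q' +
        ∑ a ∈ W, ∑ u ∈ sb a, ∑ b ∈ W, ∑ v ∈ sb b, H q a * H b q' * H u v)) *
        (For N nb).card := by
  have H0 : ∀ x y, 0 ≤ H x y := fun x y => by simpa using hH ∅ x y
  have pb : ∀ (A : Finset V) (u v : V) (E : (V → V) → Prop), Det A E →
      nf (For N nb) (fun f => E f ∧ Q A u v f) ≤ H u v * nf (For N nb) E := by
    intro A u v E hE
    refine (pair_bound (W := insert v (N.biUnion nb)) (fun x hx => ?_) Φ h0 h1 hsup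
      (mem_insert_self _ _) hE).trans (mul_le_mul_of_nonneg_right (hH _ _ _) (nf_nonneg _ _))
    exact (subset_biUnion_of_mem nb hx).trans (subset_insert _ _)
  let E1 : V → (V → V) → Prop := fun a f => True ∧ Q ∅ q a f
  let E2 : V → V → (V → V) → Prop := fun a b f => E1 a f ∧ Q {q, a} b q' f
  let E3 : V → V → V → V → (V → V) → Prop := fun a b u v f => E2 a b f ∧ Q {b, q', q, a} u v f
  have d1 : ∀ a, Det {q, a} (E1 a) := fun a =>
    Det.and (fun _ _ _ h => h) (det_Q (by simp) (by simp) (by simp))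
  have d2 : ∀ a b, Det {b, q', q, a} (E2 a b) := fun a b =>
    Det.and ((d1 a).mono (by intro x; simp; tauto))
      (det_Q (by intro x; simp; tauto) (by simp) (by simp))
  have b1 : ∀ a, nf (For N nb) (E1 a) ≤ H q a * (For N nb).card := by
    intro a
    have := pb ∅ q a (fun _ => True) (fun _ _ _ h => h)
    rwa [nf_true] at this
  have b2 : ∀ a b, nf (For N nb) (E2 a b) ≤ H q a * H b q' * (For N nb).card := by
    intro a b
    calc _ ≤ H b q' * nf (For N nb) (E1 a) := pb _ b q' _ (d1 a)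
      _ ≤ H b q' * (H q a * (For N nb).card) := mul_le_mul_of_nonneg_left (b1 a) (H0 _ _)
      _ = _ := by ring
  have b3 : ∀ a b u v, nf (For N nb) (E3 a b u v) ≤
      H q a * H b q' * H u v * (For N nb).card := by
    intro a b u v
    calc _ ≤ H u v * nf (For N nb) (E2 a b) := pb _ u v _ (d2 a b)
      _ ≤ H u v * (H q a * H b q' * (For N nb).card) :=
        mul_le_mul_of_nonneg_left (b2 a b) (H0 _ _)
      _ = _ := by ring
  have hsub : ∀ f ∈ For N nb, Chain sb q q' f → E1 q' f ∨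
      ((∃ a ∈ W, ∃ b ∈ sb a, E2 a b f) ∨
      ∃ a ∈ W, ∃ u ∈ sb a, ∃ b ∈ W, ∃ v ∈ sb b, E3 a b u v f) := by
    intro f hf hc
    by_cases c1 : Meet f q q'
    · exact Or.inl ⟨trivial, c1, by simp⟩
    by_cases c2 : ∃ a, ∃ b ∈ sb a, Meet f q a ∧ Meet f b q'
    · obtain ⟨a, b, hb, m1, m2⟩ := c2
      refine Or.inr (Or.inl ⟨a, meet_mem hN hW hf hq m1, b, hb, ⟨trivial, m1, by simp⟩, m2, ?_⟩)
      intro x hx hm
      simp only [mem_insert, mem_singleton] at hx
      rcases hx with rfl | rfl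
      · exact c1 (hm.trans m2)
      · exact c1 (m1.trans (hm.trans m2))
    rcases hc with hc | hc | ⟨a, u, hu, b, v, hv, m1, m2, m3⟩
    · exact absurd hc c1
    · exact absurd hc c2
    refine Or.inr (Or.inr ⟨a, meet_mem hN hW hf hq m1, u, hu, b, meet_mem hN hW hf hq' m3.symm,
      v, hv, ⟨⟨trivial, m1, by simp⟩, m3, ?_⟩, m2, ?_⟩)
    · intro x hx hm
      simp only [mem_insert, mem_singleton] at hx
      rcases hx with rfl | rfl
      · exact c1 (hm.trans m3)
      · exact c1 (m1.trans (hm.trans m3))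
    · intro x hx hm
      simp only [mem_insert, mem_singleton] at hx
      rcases hx with rfl | rfl | rfl | rfl
      · exact c2 ⟨a, u, hu, m1, hm.symm.trans m3⟩
      · exact c2 ⟨a, u, hu, m1, hm.symm⟩
      · exact c2 ⟨v, b, hsym _ _ hv, hm.trans m2, m3⟩
      · exact c2 ⟨v, b, hsym _ _ hv, m1.trans (hm.trans m2), m3⟩
  refine (nf_mono hsub).trans ((nf_or_le _ _ _).trans ?_)
  simp only [add_mul, sum_mul]
  refine add_le_add (b1 q') ((nf_or_le _ _ _).trans (add_le_add ?_ ?_))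
  · exact (nf_exists_le _ _ _).trans (sum_le_sum fun a _ => (nf_exists_le _ _ _).trans
      (sum_le_sum fun b _ => b2 a b))
  · exact (nf_exists_le _ _ _).trans (sum_le_sum fun a _ => (nf_exists_le _ _ _).trans
      (sum_le_sum fun u _ => (nf_exists_le _ _ _).trans (sum_le_sum fun b _ =>
        (nf_exists_le _ _ _).trans (sum_le_sum fun v _ => b3 a b u v))))

end Pool.Agent.P.MP_a28080_pr.R
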