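import Pool.Agent.P.MP_a28080_pr.Limit

/-! Graphs with a transitive family of bounded automorphisms: balls and exhaustions. -/

namespace Pool.Agent.P.MP_a28080_pr.R

open Finset Filter

variable {V : Type} [DecidableEq V]

/-- the graphs treated here -/
structure Nice (G : SimpleGraph V) (nb : V → Finset V) : Prop where
  adj : ∀ u v, G.Adj u v ↔ v ∈ nb u
  conn : G.Connected
  inf : Infinite V
  cnt : Countable V
  deg : ∃ D : ℕ, ∀ v, (nb v).card ≤ D
  aut : ∀ a b, ∃ g : G ≃g G, g a = b ∧ ∃ L, ∀ v, G.dist v (g v) ≤ L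

/-- balls -/
def rb (nb : V → Finset V) : ℕ → V → Finset V
  | 0, a => {a}
  | n + 1, a => insert a ((nb a).biUnion (rb nb n))

variable {G : SimpleGraph V} {nb : V → Finset V}

omit [DecidableEq V] in
lemma Nice.symm (h : Nice G nb) (x y : V) (hx : x ∈ nb y) : y ∈ nb x :=
  (h.adj _ _).mp ((h.adj _ _).mpr hx).symm

lemma mem_rb_walk (hadj : ∀ u v, G.Adj u v ↔ v ∈ nb u) {n : ℕ} {a u : V} :
    u ∈ rb nb n a ↔ ∃ p : G.Walk a u, p.length ≤ n := by
  induction n generalizing a with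
  | zero =>
    simp only [rb, mem_singleton, Nat.le_zero]
    constructor
    · rintro rfl; exact ⟨.nil, rfl⟩
    · rintro ⟨p, hp⟩; exact (p.eq_of_length_eq_zero hp).symm
  | succ n ih =>
    simp only [rb, mem_insert, mem_biUnion]
    constructor
    · rintro (rfl | ⟨x, hx, hu⟩)
      · exact ⟨.nil, Nat.zero_le _⟩
      · obtain ⟨p, hp⟩ := ih.mp hu
        exact ⟨.cons ((hadj _ _).mpr hx) p, by simpa using hp⟩
    · rintro ⟨p, hp⟩
      cases p with
      | nil => exact Or.inl rfl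
      | cons h p => exact Or.inr ⟨_, (hadj _ _).mp h, ih.mpr ⟨p, by simpa using hp⟩⟩

lemma Nice.mem_rb (h : Nice G nb) {n : ℕ} {a u : V} : u ∈ rb nb n a ↔ G.dist a u ≤ n := by
  rw [mem_rb_walk h.adj]
  constructor
  · rintro ⟨p, hp⟩; exact (SimpleGraph.dist_le p).trans hp
  · intro hd
    obtain ⟨p, hp⟩ := h.conn.exists_walk_length_eq_dist a u
    exact ⟨p, hp ▸ hd⟩

lemma Nice.rb_symm (h : Nice G nb) (n : ℕ) (x y : V) (hx : x ∈ rb nb n y) : y ∈ rb nb n x := by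
  rw [h.mem_rb] at hx ⊢
  rwa [SimpleGraph.dist_comm]

lemma Nice.nb_sub (h : Nice G nb) {n : ℕ} (hn : 1 ≤ n) {x y : V} (hx : x ∈ nb y) :
    x ∈ rb nb n y :=
  (mem_rb_walk h.adj).mpr ⟨.cons ((h.adj _ _).mpr hx) .nil, by simpa using hn⟩

lemma sum_bU {ι : Type*} {Φ : V → ℝ} (h0 : ∀ v, 0 ≤ Φ v) (s : Finset ι) (t : ι → Finset V) :
    ∑ x ∈ s.biUnion t, Φ x ≤ ∑ y ∈ s, ∑ x ∈ t y, Φ x := by
  classical
  induction s using Finset.induction_on with
  | empty => simp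
  | insert a s ha ih =>
    rw [biUnion_insert, sum_insert ha]
    have := sum_union_inter (s₁ := t a) (s₂ := s.biUnion t) (f := Φ)
    have h2 : 0 ≤ ∑ x ∈ t a ∩ s.biUnion t, Φ x := sum_nonneg fun _ _ => h0 _
    linarith

lemma rb_sum {Φ : V → ℝ} (h0 : ∀ v, 0 ≤ Φ v) {c : ℝ} (hc : 0 ≤ c)
    (h : ∀ v, ∑ x ∈ nb v, Φ x ≤ c * Φ v) (n : ℕ) (a : V) :
    ∑ x ∈ rb nb n a, Φ x ≤ (c + 1) ^ n * Φ a := by
  induction n generalizing a with
  | zero => simp [rb]
  | succ n ih =>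
    have h1 : ∑ x ∈ (nb a).biUnion (rb nb n), Φ x ≤ ∑ y ∈ nb a, ∑ x ∈ rb nb n y, Φ x :=
      sum_bU h0 _ _
    have h2 : ∑ y ∈ nb a, ∑ x ∈ rb nb n y, Φ x ≤ (c + 1) ^ n * (c * Φ a) := by
      refine (sum_le_sum fun y _ => ih y).trans ?_
      rw [← mul_sum]
      exact mul_le_mul_of_nonneg_left (h a) (by positivity)
    have h3 : ∑ x ∈ rb nb (n + 1) a, Φ x ≤ Φ a + ∑ x ∈ (nb a).biUnion (rb nb n), Φ x := by
      rw [rb]
      by_cases ha : a ∈ (nb a).biUnion (rb nb n)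
      · rw [insert_eq_of_mem ha]; linarith [h0 a]
      · rw [sum_insert ha]
    have h4 : Φ a ≤ (c + 1) ^ n * Φ a := le_mul_of_one_le_left (h0 a) (one_le_pow₀ (by linarith))
    rw [pow_succ]
    nlinarith

lemma Nice.card_rb (h : Nice G nb) (n : ℕ) : ∃ β : ℝ, ∀ a, ((rb nb n a).card : ℝ) ≤ β := by
  obtain ⟨D, hD⟩ := h.deg
  refine ⟨((D : ℝ) + 1) ^ n, fun a => ?_⟩
  have := rb_sum (nb := nb) (Φ := fun _ => 1) (fun _ => zero_le_one) (Nat.cast_nonneg D)
    (fun v => by simpa using hD v) n a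
  simpa using this

lemma Nice.exh (h : Nice G nb) (o : V) : Exhaustion G fun n => rb nb n o := by
  refine ⟨fun m n hmn x hx => h.mem_rb.mpr ((h.mem_rb.mp hx).trans hmn),
    fun v => ⟨_, h.mem_rb.mpr le_rfl⟩, fun n => ?_⟩
  have h0 : o ∈ ((rb nb n o : Finset V) : Set V) := mem_coe.mpr (h.mem_rb.mpr (by simp))
  rw [SimpleGraph.connected_iff_exists_forall_reachable]
  refine ⟨⟨o, h0⟩, fun w => ?_⟩
  obtain ⟨p, hp⟩ := (mem_rb_walk h.adj).mp w.2
  refine (p.induce _ fun x hx => mem_coe.mpr ((mem_rb_walk h.adj).mpr ?_)).reachable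
  exact ⟨p.takeUntil x hx, (p.length_takeUntil_le_length hx).trans hp⟩

/-- admissible sequences of finite networks -/
def Adm (nb₀ : V → Finset V) (N : ℕ → Finset V) (nb : ℕ → V → Finset V) : Prop :=
  (∀ n, (For (N n) (nb n)).Nonempty) ∧
    (∀ n, ∀ v ∈ N n, ∀ z ∈ N n, z ∈ nb n v → v ∈ nb n z) ∧ (∀ n v, nb n v ⊆ nb₀ v) ∧
    ∀ K : Finset V, ∀ᶠ n in atTop, ∀ v ∈ K, v ∈ N n ∧ nb n v = nb₀ v

omit [DecidableEq V] in
lemma exh_ev {Λ : ℕ → Finset V} (h : Exhaustion G Λ) (K : Finset V) :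
    ∀ᶠ n in atTop, ∀ v ∈ K, v ∈ Λ n := by
  rw [eventually_all_finset]
  intro v _
  obtain ⟨n, hn⟩ := h.2.1 v
  exact eventually_atTop.mpr ⟨n, fun m hm => h.1 hm hn⟩

lemma Nice.adm_free (hG : Nice G nb) {Λ : ℕ → Finset V} (h : Exhaustion G Λ) :
    ∃ ρ : ℕ → V, (∀ n, ρ n ∈ Λ n) ∧
      Adm nb (fun n => (Λ n).erase (ρ n)) fun n => nbG G (Λ n) := by
  have := hG.cnt
  have := hG.inf
  obtain ⟨e, he⟩ := Countable.exists_injective_nat V
  have hne : ∀ n, (Λ n).Nonempty := fun n => by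
    obtain ⟨v, hv⟩ := (h.2.2 n).nonempty
    exact ⟨v, hv⟩
  choose ρ hρ hmax using fun n => exists_max_image (Λ n) e (hne n)
  refine ⟨ρ, hρ, fun n => ?_, fun n v hv z _ hz => ?_,
    fun n v z hz => (hG.adj _ _).mp (mem_nbG.mp hz).2, fun K => ?_⟩
  · obtain ⟨f, hf, -⟩ := exists_parent (hρ n) le_rfl (h.2.2 n)
    exact ⟨f, hf⟩
  · exact mem_nbG.mpr ⟨mem_of_mem_erase hv, (mem_nbG.mp hz).2.symm⟩
  · obtain ⟨w, hw⟩ : ∃ w, K.sup e < e w := by
      by_contra hc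
      simp only [not_exists, not_lt] at hc
      exact Set.infinite_of_injective_forall_mem he (s := Set.Iic (K.sup e)) hc (Set.finite_Iic _)
    filter_upwards [exh_ev h K, exh_ev h (K.biUnion nb), exh_ev h {w}] with n k1 k2 k4 v hv
    have k3 : ∀ z ∈ nb v, z ∈ Λ n := fun z hz => k2 z (mem_biUnion.mpr ⟨v, hv, hz⟩)
    refine ⟨mem_erase.mpr ⟨?_, k1 v hv⟩, ?_⟩
    · rintro rfl
      have h1 := hmax n w (k4 w (mem_singleton_self w))
      have h2 : e (ρ n) ≤ K.sup e := le_sup hv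
      omega
    · ext z
      rw [mem_nbG, hG.adj]
      exact ⟨fun h => h.2, fun h => ⟨k3 z h, h⟩⟩

lemma Nice.wired_ne (hG : Nice G nb) (N : Finset V) : (For N nb).Nonempty := by
  have := hG.inf
  obtain ⟨o, ho⟩ := Infinite.exists_notMem_finset N
  have hex : ∀ v, ∃ x, (v ∉ N → x = v) ∧ (v ∈ N → x ∈ nb v ∧ G.dist x o < G.dist v o) := by
    intro v
    by_cases hv : v ∈ N
    · obtain ⟨p, hp⟩ := hG.conn.exists_walk_length_eq_dist v o
      obtain ⟨x, h, p', rfl⟩ := p.exists_eq_cons_of_ne fun h : v = o => ho (h ▸ hv)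
      refine ⟨x, fun h => absurd hv h, fun _ => ⟨(hG.adj _ _).mp h, ?_⟩⟩
      rw [← hp, SimpleGraph.Walk.length_cons]
      exact Nat.lt_succ_of_le (SimpleGraph.dist_le p')
    · exact ⟨v, fun _ => rfl, fun h => absurd h hv⟩
  choose f hf1 hf2 using hex
  refine ⟨f, mem_For.mpr ⟨hf1, fun v hv => (hf2 v hv).1, fun v => ?_⟩⟩
  induction h : G.dist v o using Nat.strong_induction_on generalizing v with
  | _ k ih =>
    by_cases hv : v ∈ N
    · obtain ⟨n, hn⟩ := ih _ (h ▸ (hf2 v hv).2) (f v) rfl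
      exact ⟨n + 1, hn⟩
    · exact ⟨0, hv⟩

lemma Nice.adm_wired (hG : Nice G nb) (o : V) : Adm nb (fun n => rb nb n o) fun _ => nb :=
  ⟨fun _ => hG.wired_ne _, fun _ _ _ _ _ h => hG.symm _ _ h, fun _ _ => Subset.refl _,
    fun K => (exh_ev (hG.exh o) K).mono fun _ h v hv => ⟨h v hv, rfl⟩⟩

omit [DecidableEq V] in
/-- square summable harmonic functions vanish -/
lemma Nice.liouville (hG : Nice G nb) {h : V → ℝ} {C : ℝ} (hC : ∀ K : Finset V, ∑ v ∈ K, h v ^ 2 ≤ C)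
    (hh : ∀ v, ∑ z ∈ nb v, (h v - h z) = 0) (a : V) : h a = 0 := by
  have := hG.inf
  have key : ∀ h : V → ℝ, (∀ K : Finset V, ∑ v ∈ K, h v ^ 2 ≤ C) →
      (∀ v, ∑ z ∈ nb v, (h v - h z) = 0) → ¬ 0 < h a := by
    intro h hC hh ha
    have hfin : {v | h a ≤ h v}.Finite := by
      by_contra hinf
      obtain ⟨n, hn⟩ := exists_nat_gt (C / h a ^ 2)
      obtain ⟨K, hK, hcard⟩ := Set.Infinite.exists_subset_card_eq hinf n
      have h1 : (n : ℝ) * h a ^ 2 ≤ ∑ v ∈ K, h v ^ 2 := by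
        rw [← hcard, ← nsmul_eq_mul]
        exact card_nsmul_le_sum _ _ _ fun v hv => pow_le_pow_left₀ ha.le (hK hv) 2
      rw [div_lt_iff₀ (by positivity)] at hn
      linarith [hC K]
    obtain ⟨m, hm, hmax⟩ := hfin.exists_maximalFor h _ ⟨a, le_refl (h a)⟩
    have hle : ∀ v, h v ≤ h m := fun v => by
      by_cases hv : h a ≤ h v
      · exact (le_total _ _).elim id (hmax hv)
      · exact (not_le.mp hv).le.trans hm
    have hall : ∀ v w, G.Reachable v w → h v = h m → h w = h m := by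
      rintro v w ⟨p⟩
      induction p with
      | nil => exact id
      | @cons x y z hxy p ih =>
        intro hx
        refine ih ?_
        have h1 := (sum_eq_zero_iff_of_nonneg fun z _ => by linarith [hle z]).mp (hh x) y
          ((hG.adj _ _).mp hxy)
        linarith
    refine Set.infinite_univ (hfin.subset fun v _ => ?_)
    change h a ≤ h v
    rw [hall m v (hG.conn m v) rfl]
    exact hm
  have h1 := key h hC hh
  have h2 := key (fun v => - h v) (by simpa using hC) fun v => by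
    have := hh v
    simp only [sum_sub_distrib, sum_neg_distrib] at this ⊢
    linarith
  linarith [not_lt.mp h1, not_lt.mp h2]

end Pool.Agent.P.MP_a28080_pr.R
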