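import Pool.Agent.P.MP_a28080_pr.R.Build

/-! Footprints of the four territories. -/

namespace Pool.Agent.P.MP_a28080_pr.R

open Finset

/-- signed coordinate -/
def hz : Bool → ℤ → ℤ
  | true, x => x
  | false, x => -x

/-- even points -/
def ev (f : Fin 20 → ℤ) : BCC 20 := ⟨fun j => 2 * f j, fun i j => by dsimp only; omega⟩

lemma ev_val (f : Fin 20 → ℤ) (j : Fin 20) : (ev f).1 j = 2 * f j := rfl

variable (r K : ℕ)

/-- central footprint -/
def PB (s : Bool) (v : BCC 20) : Prop := (∀ j, (v.1 j).natAbs ≤ 2 * r + 6) ∨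
  (-(2 * r + 6 : ℤ) ≤ hz s (v.1 0) ∧ hz s (v.1 0) ≤ 2 * K + 34 * r + 72 ∧
    ∀ j, j ≠ 0 → 2 * r + 5 ≤ v.1 j ∧ v.1 j ≤ 2 * r + 6)

/-- the surrounding tube -/
def PQ (s : Bool) (v : BCC 20) : Prop := -(16 * r + 36 : ℤ) ≤ hz s (v.1 0) ∧
  hz s (v.1 0) ≤ K + 17 * r + 36 ∧ ∀ j, j ≠ 0 → (v.1 j).natAbs ≤ 16 * r + 36

/-- blob footprints -/
def PP : Bool × Bool → BCC 20 → Prop
  | (s, true), v => PB r K s v
  | (s, false), v => PQ r K s v ∧ ¬ PB r K s v

/-- arm footprints -/
def PA : Bool × Bool → BCC 20 → Prop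
  | (s, true), v => 2 * K + 34 * r + 72 ≤ hz s (v.1 0) ∧ hz s (v.1 0) ≤ 4 * K + 34 * r + 74 ∧
      ∀ j, j ≠ 0 → 2 * r + 5 ≤ v.1 j ∧ v.1 j ≤ 2 * r + 6
  | (s, false), v => 16 * r + 36 ≤ hz s (v.1 1) ∧ hz s (v.1 1) ≤ 2 * K + 16 * r + 38 ∧
      ∀ j, j ≠ 1 → 0 ≤ v.1 j ∧ v.1 j ≤ 1

/-- gates -/
def gaP : Bool × Bool → BCC 20
  | (s, true) => ev fun j => if j = 0 then hz s (K + 17 * r + 36) else r + 3
  | (s, false) => ev fun j => if j = 1 then hz s (8 * r + 18) else 0

/-- anchors -/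
def alP : Bool × Bool → BCC 20
  | (s, true) => ev fun j => if j = 0 then hz s (2 * K + 17 * r + 37) else r + 3
  | (s, false) => ev fun j => if j = 1 then hz s (K + 8 * r + 19) else 0

variable {r K}

lemma n01 : (0 : Fin 20) ≠ 1 := by decide
lemma n10 : (1 : Fin 20) ≠ 0 := by decide

lemma ga_PP (i : Bool × Bool) : PP r K i (gaP r K i) := by
  rcases i with ⟨s, _ | _⟩
  · refine ⟨⟨?_, ?_, fun j _ => ?_⟩, ?_⟩
    · cases s <;> simp [gaP, ev_val, hz] <;> omega
    · cases s <;> simp [gaP, ev_val, hz] <;> omega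
    · cases s <;> simp only [gaP, ev_val, hz] <;> split_ifs <;> omega
    · rintro (h | ⟨-, -, h⟩)
      · have := h 1
        cases s <;> simp only [gaP, ev_val, hz, if_true] at this <;> omega
      · have := h 1 n10
        cases s <;> simp only [gaP, ev_val, hz, if_true] at this <;> omega
  · refine Or.inr ⟨?_, ?_, fun j hj => ?_⟩
    · cases s <;> simp only [gaP, ev_val, hz, if_true] <;> omega
    · cases s <;> simp only [gaP, ev_val, hz, if_true] <;> omega
    · simp only [gaP, ev_val, if_neg hj]; omega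

lemma ga_PA (i : Bool × Bool) : PA r K i (gaP r K i) := by
  rcases i with ⟨s, _ | _⟩ <;> refine ⟨?_, ?_, fun j hj => ?_⟩
  any_goals (simp only [gaP, ev_val, if_neg hj]; omega)
  all_goals cases s <;> simp only [gaP, ev_val, hz, if_true] <;> omega

lemma al_PA (i : Bool × Bool) : PA r K i (alP r K i) := by
  rcases i with ⟨s, _ | _⟩ <;> refine ⟨?_, ?_, fun j hj => ?_⟩
  any_goals (simp only [alP, ev_val, if_neg hj]; omega)
  all_goals cases s <;> simp only [alP, ev_val, hz, if_true] <;> omega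

/-- coordinate bounds on the territories -/
lemma bnd {i : Bool × Bool} {v : BCC 20} (h : PP r K i v ∨ PA r K i v) :
    -(16 * r + 36 : ℤ) ≤ hz i.1 (v.1 0) ∧
    (i.2 = false → hz i.1 (v.1 0) ≤ K + 17 * r + 36) ∧ -(16 * r + 36 : ℤ) ≤ hz i.1 (v.1 1) ∧
    (i.2 = true → (v.1 1).natAbs ≤ 2 * r + 6) ∧
    (PP r K i v → hz i.1 (v.1 0) ≤ 2 * K + 34 * r + 72 ∧ (v.1 1).natAbs ≤ 16 * r + 36) := by
  rcases i with ⟨s, _ | _⟩
  · rcases h with ⟨⟨h1, h2, h3⟩, -⟩ | ⟨h1, h2, h3⟩
    · have := h3 1 n10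
      cases s <;> simp only [hz] at * <;>
        exact ⟨by omega, fun _ => by omega, by omega, by simp, fun _ => by omega⟩
    · have := h3 0 n01
      refine ⟨?_, fun _ => ?_, ?_, by simp, fun h => ⟨?_, h.1.2.2 1 n10⟩⟩ <;>
        cases s <;> simp only [hz] at * <;> omega
  · have key : PB r K s v → -(16 * r + 36 : ℤ) ≤ hz s (v.1 0) ∧
        hz s (v.1 0) ≤ 2 * K + 34 * r + 72 ∧ (v.1 1).natAbs ≤ 2 * r + 6 := by
      rintro (h | ⟨h1, h2, h3⟩)
      · have := h 0
        have := h 1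
        cases s <;> simp only [hz] <;> omega
      · have := h3 1 n10
        omega
    rcases h with h | ⟨h1, h2, h3⟩
    · have := key h
      refine ⟨this.1, by simp, ?_, fun _ => this.2.2, fun _ => ⟨this.2.1, by omega⟩⟩
      cases s <;> simp only [hz] <;> omega
    · have := h3 1 n10
      refine ⟨by dsimp only; omega, by simp, ?_, fun _ => by omega, fun h => ?_⟩
      · cases s <;> simp only [hz] <;> omega
      · have := key h
        dsimp only
        omega

lemma PP_PA {i : Bool × Bool} {v : BCC 20} (h : PP r K i v) (h' : PA r K i v) :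
    v = gaP r K i := by
  have b := (bnd (Or.inl h)).2.2.2.2 h
  ext j
  rcases i with ⟨s, _ | _⟩
  · obtain ⟨h1, -, h3⟩ := h'
    have := par v j 1
    by_cases hj : j = 1
    · subst hj
      cases s <;> simp only [gaP, ev_val, hz, if_true] at * <;> omega
    · have := h3 j hj
      cases s <;> simp only [gaP, ev_val, hz, if_neg hj] at * <;> omega
  · obtain ⟨h1, -, h3⟩ := h'
    have := par v j 0
    by_cases hj : j = 0
    · subst hj
      cases s <;> simp only [gaP, ev_val, hz, if_true] at * <;> omega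
    · have := h3 j hj
      cases s <;> simp only [gaP, ev_val, hz, if_neg hj] at * <;> omega

lemma foot_disj {s : Bool} {v : BCC 20} (h : PP r K (s, true) v ∨ PA r K (s, true) v)
    (h' : PP r K (s, false) v ∨ PA r K (s, false) v) : False := by
  have b := (bnd h).2.2.2.1 rfl
  have b' := (bnd h').2.1 rfl
  rcases h' with h' | ⟨h1, -, -⟩
  · rcases h with h | ⟨h1, -, -⟩
    · exact h'.2 h
    · dsimp only at b'; omega
  · cases s <;> simp only [hz] at h1 <;> omega

lemma foot_anch {i j : Bool × Bool} {v : BCC 20} (h : PP r K j v ∨ PA r K j v)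
    (hn : near K (alP r K i) v) : i = j ∧ ¬ PP r K i v := by
  obtain ⟨b1, b2, b3, b4, -⟩ := bnd h
  have b5 := fun h : PP r K i v => (bnd (Or.inl h)).2.2.2.2 h
  have h0 := hn 0
  have h1 := hn 1
  rcases i with ⟨s, _ | _⟩ <;> rcases j with ⟨t, _ | _⟩ <;> cases s <;> cases t <;>
    simp only [alP, ev_val, hz, if_true, forall_true_left, true_and] at * <;>
    first | omega | (intro h; have := b5 h; omega)

lemma foot_cross {s b : Bool} {v w : BCC 20} (h : K + 16 * r + 36 < hz s (v.1 0))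
    (h' : PP r K (!s, b) w ∨ PA r K (!s, b) w) : ¬ near K v w := by
  intro hn
  have b1 := (bnd h').1
  have h0 := hn 0
  cases s <;> simp only [hz, Bool.not_false, Bool.not_true] at * <;> omega

lemma foot_core {s : Bool} {v w : BCC 20} (h : PB r K s v) (h1 : hz s (v.1 0) ≤ K + 16 * r + 36)
    (hn : near r v w) : PQ r K s w := by
  have h0 := hn 0
  rcases h with h | ⟨h2, h3, h4⟩
  · have := h 0
    refine ⟨?_, ?_, fun j _ => by have := h j; have := hn j; omega⟩ <;>
      cases s <;> simp only [hz] at * <;> omega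
  · refine ⟨?_, ?_, fun j hj => by have := h4 j hj; have := hn j; omega⟩ <;>
      cases s <;> simp only [hz] at * <;> omega

lemma foot_side {s t : Bool} {v w x y : BCC 20} (h : PB r K s v) (hxy : y ∈ nbL x)
    (hl : lab (4 * r + 9) x y = fun _ => 1) (h1 : near r v x) (h2 : near r x w) :
    PB r K t w := by
  have k : ∀ j, (x.1 j + y.1 j).natAbs + 1 < 2 * (4 * r + 9) → x.1 j + y.1 j = 1 := fun j =>
    odd_cong (by omega) (by have := mem_nbL.mp hxy j; omega) (congrFun hl j)
  rcases h with h | ⟨-, -, h⟩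
  · refine Or.inl fun j => ?_
    have := h j
    have := k j
    have := h1 j
    have := h2 j
    have := mem_nbL.mp hxy j
    omega
  · have := h 1 n10
    have := k 1
    have := h1 1
    have := mem_nbL.mp hxy 1
    omega

lemma foot_tube {i : Bool × Bool} {v : BCC 20} (h : PP r K i v ∨ PA r K i v) :
    v ∈ tube 0 (4 * K + 34 * r + 74) (16 * r + 36) ∪ tube 1 (4 * K + 34 * r + 74) (16 * r + 36) := by
  rcases i with ⟨s, _ | _⟩
  · rcases h with ⟨⟨h1, h2, h3⟩, -⟩ | ⟨h1, h2, h3⟩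
    · exact mem_union_left _ (mem_tube (by cases s <;> simp only [hz] at * <;> omega) h3)
    · exact mem_union_right _ (mem_tube (by cases s <;> simp only [hz] at * <;> omega)
        fun k hk => by have := h3 k hk; omega)
  · refine mem_union_left _ ?_
    rcases h with (h | ⟨h1, h2, h3⟩) | ⟨h1, h2, h3⟩
    · exact mem_tube (by have := h 0; omega) fun k _ => by have := h k; omega
    · exact mem_tube (by cases s <;> simp only [hz] at * <;> omega)
        fun k hk => by have := h3 k hk; omega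
    · exact mem_tube (by cases s <;> simp only [hz] at * <;> omega)
        fun k hk => by have := h3 k hk; omega

/-- boxes with one signed special coordinate -/
lemma reach1 {P : Set (BCC 20)} (s : Bool) (j0 : Fin 20) {a b c e : ℤ} (hab : a < b) (hce : c < e)
    (hP : ∀ v : BCC 20, a ≤ hz s (v.1 j0) → hz s (v.1 j0) ≤ b →
      (∀ j, j ≠ j0 → c ≤ v.1 j ∧ v.1 j ≤ e) → v ∈ P) {u v : BCC 20}
    (hu : a ≤ hz s (u.1 j0) ∧ hz s (u.1 j0) ≤ b ∧ ∀ j, j ≠ j0 → c ≤ u.1 j ∧ u.1 j ≤ e)
    (hv : a ≤ hz s (v.1 j0) ∧ hz s (v.1 j0) ≤ b ∧ ∀ j, j ≠ j0 → c ≤ v.1 j ∧ v.1 j ≤ e) :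
    (res (bccG 20) P).Reachable u v := by
  have key : ∀ v : BCC 20, (∀ j, (if j = j0 then min (hz s a) (hz s b) else c) ≤ v.1 j ∧
      v.1 j ≤ if j = j0 then max (hz s a) (hz s b) else e) ↔ (a ≤ hz s (v.1 j0) ∧
      hz s (v.1 j0) ≤ b ∧ ∀ j, j ≠ j0 → c ≤ v.1 j ∧ v.1 j ≤ e) := by
    intro v
    constructor
    · intro h
      have := h j0
      refine ⟨?_, ?_, fun j hj => by simpa only [if_neg hj] using h j⟩ <;>
        cases s <;> simp only [hz, if_true] at * <;> omega
    · rintro ⟨h1, h2, h3⟩ j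
      by_cases hj : j = j0
      · subst hj
        cases s <;> simp only [hz, if_true] at * <;> omega
      · simpa only [if_neg hj] using h3 j hj
  refine box_reach (fun j => ?_) (fun v h => ?_) ((key u).mpr hu) ((key v).mpr hv)
  · split_ifs
    · cases s <;> simp only [hz] <;> omega
    · exact hce
  · obtain ⟨h1, h2, h3⟩ := (key v).mp h
    exact hP v h1 h2 h3

lemma reach_PA (i : Bool × Bool) {v : BCC 20} (h : PA r K i v) :
    (res (bccG 20) {v | PA r K i v}).Reachable v (gaP r K i) := by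
  have hg := ga_PA (r := r) (K := K) i
  rcases i with ⟨s, _ | _⟩ <;>
    exact reach1 s _ (by omega) (by omega) (fun v h1 h2 h3 => And.intro h1 (And.intro h2 h3)) h hg

lemma reach_PB (s : Bool) {v : BCC 20} (h : PB r K s v) :
    (res (bccG 20) {v | PP r K (s, true) v}).Reachable v (gaP r K (s, true)) := by
  have key : ∀ v : BCC 20, (-(2 * r + 6 : ℤ) ≤ hz s (v.1 0) ∧ hz s (v.1 0) ≤ 2 * K + 34 * r + 72 ∧
      ∀ j, j ≠ 0 → 2 * r + 5 ≤ v.1 j ∧ v.1 j ≤ 2 * r + 6) →
      (res (bccG 20) {v | PP r K (s, true) v}).Reachable v (gaP r K (s, true)) := by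
    intro v hv
    obtain ⟨g1, -, g3⟩ := ga_PA (r := r) (K := K) (s, true)
    have g2 := ((bnd (Or.inl (ga_PP (r := r) (K := K) (s, true)))).2.2.2.2 (ga_PP _)).1
    exact reach1 s 0 (by omega) (by omega) (fun v h1 h2 h3 => Or.inr ⟨h1, h2, h3⟩) hv
      ⟨by omega, g2, g3⟩
  rcases h with h | h
  · refine (box_reach (lo := fun _ => -(2 * r + 6 : ℤ)) (hi := fun _ => 2 * r + 6)
      (v := ell (2 * r + 6)) (fun _ => by omega) (fun v h => Or.inl fun j => by have := h j; omega)
      (fun j => by have := h j; omega) fun j => by rw [ell_val]; omega).trans (key _ ?_)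
    refine ⟨?_, ?_, fun j _ => by rw [ell_val]; omega⟩ <;>
      cases s <;> simp only [hz, ell_val] <;> omega
  · exact key v h

/-- boxes with two special coordinates -/
lemma reach2 (s : Bool) {j0 : Fin 20} (h0 : j0 ≠ 0) {a b c e : ℤ} (hab : a < b) (hce : c < e)
    (ha : -(16 * r + 36 : ℤ) ≤ a) (hb : b ≤ K + 17 * r + 36) (hc : -(16 * r + 36 : ℤ) ≤ c)
    (he : e ≤ 16 * r + 36) (hf : b < -(2 * r + 6 : ℤ) ∨ 2 * r + 6 < c ∨ e < -(2 * r + 6 : ℤ) ∨
      (2 * r + 6 < a ∧ e < 2 * r + 5)) {u v : BCC 20} (hu : PQ r K s u) (hv : PQ r K s v)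
    (u1 : a ≤ hz s (u.1 0) ∧ hz s (u.1 0) ≤ b ∧ c ≤ u.1 j0 ∧ u.1 j0 ≤ e)
    (v1 : a ≤ hz s (v.1 0) ∧ hz s (v.1 0) ≤ b ∧ c ≤ v.1 j0 ∧ v.1 j0 ≤ e) :
    (res (bccG 20) {v | PP r K (s, false) v}).Reachable u v := by
  have key : ∀ v : BCC 20, PQ r K s v →
      (a ≤ hz s (v.1 0) ∧ hz s (v.1 0) ≤ b ∧ c ≤ v.1 j0 ∧ v.1 j0 ≤ e) → ∀ j,
      (if j = 0 then min (hz s a) (hz s b) else if j = j0 then c else -(16 * r + 36 : ℤ)) ≤ v.1 j ∧
      v.1 j ≤ if j = 0 then max (hz s a) (hz s b) else if j = j0 then e else 16 * r + 36 := by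
    rintro v ⟨-, -, h⟩ h' j
    split_ifs with h1 h2
    · subst h1
      cases s <;> simp only [hz] at * <;> omega
    · subst h2; omega
    · have := h j h1; omega
  refine box_reach (fun j => ?_) (fun v h => ?_) (key u hu u1) (key v hv v1)
  · split_ifs
    · cases s <;> simp only [hz] <;> omega
    · exact hce
    · omega
  · have k0 := h 0
    have k1 := h j0
    simp only [if_true, if_neg h0] at k0 k1
    refine ⟨⟨?_, ?_, fun j hj => ?_⟩, ?_⟩
    · cases s <;> simp only [hz] at * <;> omega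
    · cases s <;> simp only [hz] at * <;> omega
    · have := h j
      simp only [if_neg hj] at this
      split_ifs at this <;> omega
    · rintro (k | ⟨k2, -, k⟩)
      · have := k 0
        have := k j0
        cases s <;> simp only [hz] at * <;> omega
      · have := k j0 h0
        cases s <;> simp only [hz] at * <;> omega

lemma reach_hub (s : Bool) {v : BCC 20} (h : PP r K (s, false) v) :
    (res (bccG 20) {v | PP r K (s, false) v}).Reachable v
      (ev fun j => if j = 0 then 0 else r + 4) := by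
  obtain ⟨hq, hb⟩ := h
  have hh : PQ r K s (ev fun j => if j = 0 then 0 else r + 4) := by
    refine ⟨?_, ?_, fun j hj => by simp only [ev_val, if_neg hj]; omega⟩ <;>
      cases s <;> simp only [hz, ev_val, if_true] <;> omega
  have key : ∀ (j0 : Fin 20) (a b c e x y : ℤ), j0 ≠ 0 → a < b → c < e →
      -(16 * r + 36 : ℤ) ≤ a → b ≤ K + 17 * r + 36 → -(16 * r + 36 : ℤ) ≤ c → e ≤ 16 * r + 36 →
      (b < -(2 * r + 6 : ℤ) ∨ 2 * r + 6 < c ∨ e < -(2 * r + 6 : ℤ) ∨
        (2 * r + 6 < a ∧ e < 2 * r + 5)) →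
      (a ≤ 2 * x ∧ 2 * x ≤ b ∧ c ≤ 2 * y ∧ 2 * y ≤ e) →
      (a ≤ hz s (v.1 0) ∧ hz s (v.1 0) ≤ b ∧ c ≤ v.1 j0 ∧ v.1 j0 ≤ e) →
      (res (bccG 20) {v | PP r K (s, false) v}).Reachable v
        (ev fun j => if j = 0 then 0 else r + 4) := by
    intro j0 a b c e x y h0 hab hce ha hb hc he hf hxy hv
    obtain ⟨j1, h1, h2⟩ : ∃ j1 : Fin 20, j1 ≠ 0 ∧ j1 ≠ j0 := by
      by_cases h : j0 = 1
      · exact ⟨2, by decide, by rw [h]; decide⟩
      · exact ⟨1, n10, Ne.symm h⟩
    have e0 : hz s ((ev fun j => if j = 0 then hz s x else if j = j0 then y else r + 4).1 0) =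
        2 * x := by cases s <;> simp [hz, ev_val]
    have hw : PQ r K s (ev fun j => if j = 0 then hz s x else if j = j0 then y else r + 4) := by
      refine ⟨by omega, by omega, fun j hj => ?_⟩
      simp only [ev_val, if_neg hj]
      split_ifs <;> omega
    refine (reach2 s h0 hab hce ha hb hc he hf hq hw hv ?_).trans
      (reach2 s h1 (a := -(16 * r + 36 : ℤ)) (b := K + 17 * r + 36) (c := 2 * r + 7)
        (e := 16 * r + 36) (by omega) (by omega) le_rfl le_rfl (by omega) le_rfl (by omega) hw hh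
        ⟨hw.1, hw.2.1, ?_⟩ ⟨hh.1, hh.2.1, ?_⟩)
    · rw [e0]
      simp only [ev_val, if_neg h0, if_true]
      exact hxy
    · simp only [ev_val, if_neg h1, if_neg h2]; omega
    · simp only [ev_val, if_neg h1]; omega
  obtain ⟨q1, q2, q3⟩ := hq
  by_cases c1 : ∃ j, j ≠ 0 ∧ 2 * r + 6 < v.1 j
  · obtain ⟨j, hj, h⟩ := c1
    have := q3 j hj
    exact key j _ _ (2 * r + 7) _ 0 (r + 4) hj (by omega) (by omega) le_rfl le_rfl (by omega)
      le_rfl (by omega) (by omega) (by omega)
  by_cases c2 : ∃ j, j ≠ 0 ∧ v.1 j < -(2 * r + 6 : ℤ)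
  · obtain ⟨j, hj, h⟩ := c2
    have := q3 j hj
    exact key j _ _ _ (-(2 * r + 7)) 0 (-(r + 4)) hj (by omega) (by omega) le_rfl le_rfl le_rfl
      (by omega) (by omega) (by omega) (by omega)
  by_cases c3 : hz s (v.1 0) < -(2 * r + 6 : ℤ)
  · have := q3 1 n10
    exact key 1 _ (-(2 * r + 7)) _ _ (-(r + 4)) 0 n10 (by omega) (by omega) le_rfl (by omega)
      le_rfl le_rfl (by omega) (by omega) (by omega)
  simp only [not_exists, not_and, not_lt] at c1 c2
  simp only [PB, not_or, not_forall, not_and, not_le] at hb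
  obtain ⟨⟨j, hj⟩, hb⟩ := hb
  obtain ⟨k, hk, hb⟩ := hb (by omega) (by omega)
  have c4 : 2 * r + 6 < hz s (v.1 0) := by
    by_cases h : j = 0
    · subst h
      cases s <;> simp only [hz] at * <;> omega
    · have := c1 j h
      have := c2 j h
      omega
  have := c1 k hk
  have := c2 k hk
  exact key k (2 * r + 7) _ _ (2 * r + 4) (r + 4) 0 hk (by omega) (by omega) (by omega) le_rfl
    le_rfl (by omega) (by omega) (by omega) (by omega)

lemma reach_PP (i : Bool × Bool) {v : BCC 20} (h : PP r K i v) :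
    (res (bccG 20) {v | PP r K i v}).Reachable v (gaP r K i) := by
  rcases i with ⟨s, _ | _⟩
  · exact (reach_hub s h).trans (reach_hub s (ga_PP (s, false))).symm
  · exact reach_PB s h

lemma edge_PP (i : Bool × Bool) (a : Lab 20 (4 * r + 9)) :
    ∃ v, PP r K i v ∧ ∃ w, PP r K i w ∧ w ∈ nbL v ∧ lab (4 * r + 9) v w = a := by
  rcases i with ⟨s, _ | _⟩
  · obtain ⟨v, w, h1, h2, h3⟩ := exists_edge (μ := 2 * r + 4) (by omega)
      (fun j => if j = 1 then 1 else 0) a
    have key : ∀ v : BCC 20, (∀ j, (v.1 j - 2 * (4 * r + 9 : ℕ) *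
        (if j = 1 then 1 else 0 : ℤ)).natAbs ≤ 2 * r + 4 + 1) → PP r K (s, false) v := by
      intro v h
      have k0 := h 0
      have k1 := h 1
      simp only [if_neg n01, if_true, mul_zero, mul_one] at k0 k1
      refine ⟨⟨?_, ?_, fun j _ => ?_⟩, ?_⟩
      · cases s <;> simp only [hz] <;> omega
      · cases s <;> simp only [hz] <;> omega
      · have := h j
        split_ifs at this <;> omega
      · rintro (k | ⟨-, -, k⟩)
        · have := k 1; omega
        · have := k 1 n10; omega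
    exact ⟨v, key v fun j => (h3 j).1, w, key w fun j => (h3 j).2, h1, h2⟩
  · obtain ⟨v, w, h1, h2, h3⟩ := exists_edge (μ := 2 * r + 4) (by omega) 0 a
    simp only [Pi.zero_apply, mul_zero, sub_zero] at h3
    exact ⟨v, Or.inl fun j => by have := h3 j; omega, w, Or.inl fun j => by have := h3 j; omega,
      h1, h2⟩

lemma ell_PS (s : Bool) {t : ℤ} (h1 : 2 * r + 6 < t) (h2 : t ≤ 16 * r + 36) :
    PP r K (s, false) (ell t) := by
  refine ⟨⟨?_, ?_, fun j _ => by rw [ell_val]; omega⟩, ?_⟩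
  · cases s <;> simp only [hz, ell_val] <;> omega
  · cases s <;> simp only [hz, ell_val] <;> omega
  · rintro (k | ⟨-, -, k⟩)
    · have := k 1; rw [ell_val] at this; omega
    · have := k 1 n10; rw [ell_val] at this; omega

end Pool.Agent.P.MP_a28080_pr.R
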