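import Pool.Agent.P.MP_a28080_pr.R.Lamp

/-! The chain bound on the lamp graph. -/

namespace Pool.Agent.P.MP_a28080_pr.R

open Finset Filter

variable {d m : ℕ} [NeZero m]

lemma convA (hd : d = 20) {j k : ℕ} (h : j + k + 1 ≤ 8) (W : Finset (VV d m)) (x y : BCC d) :
    ∑ w ∈ W, Phi j (x - w.1) * Phi k (w.1 - y) ≤
      Fintype.card (Lab d m → Bool) * Phi (j + k + 1) (x - y) := by
  refine (sum_le_sum_of_subset_of_nonneg (t := W.image Prod.fst ×ˢ univ)
    (fun w hw => mem_product.mpr ⟨mem_image_of_mem _ hw, mem_univ _⟩)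
    fun _ _ _ => mul_nonneg (Phi_nonneg _ _) (Phi_nonneg _ _)).trans ?_
  rw [sum_product]
  simp only [sum_const, card_univ, nsmul_eq_mul]
  rw [← mul_sum]
  exact mul_le_mul_of_nonneg_left (Phi_conv hd h _ x y) (Nat.cast_nonneg _)

lemma conv_rb (hd : d = 20) (r : ℕ) {j k : ℕ} (h : j + k + 1 ≤ 8) (W : Finset (VV d m))
    (x y : BCC d) : ∑ a ∈ W, ∑ b ∈ rb nbA r a, Phi j (x - a.1) * Phi k (b.1 - y) ≤
      (2 * 2 ^ d + 1) ^ r * Fintype.card (Lab d m → Bool) * Phi (j + k + 1) (x - y) := by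
  rw [mul_assoc]
  refine le_trans ?_ (mul_le_mul_of_nonneg_left (convA hd h W x y) (by positivity))
  rw [mul_sum]
  refine sum_le_sum fun a _ => ?_
  rw [← mul_sum, mul_left_comm]
  refine mul_le_mul_of_nonneg_left (rb_sum (Φ := fun b : VV d m => Phi k (b.1 - y))
    (fun _ => Phi_nonneg _ _) (by positivity) (fun v => ?_) r a) (Phi_nonneg _ _)
  rw [sum_nbA v fun w => Phi k (w - y), mul_assoc]
  exact mul_le_mul_of_nonneg_left (Phi_nb hd (by omega) _ _) zero_le_two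

variable [NeZero d]

lemma chain_lamp (hd : d = 20) {μ : ℕ} (hm : m = 2 * μ + 1) (r : ℕ) : ∃ C : ℝ, 0 ≤ C ∧
    ∀ (N : Finset (VV d m)) (q q' : VV d m),
    nf (For N nbA) (Chain (rb nbA r) q q') ≤ C * Phi 5 (q.1 - q'.1) * (For N nbA).card := by
  obtain ⟨M, hM⟩ : ∃ M : ℝ, M = Fintype.card (Lab d m → Bool) := ⟨_, rfl⟩
  obtain ⟨β, hβ⟩ : ∃ β : ℝ, β = (2 * 2 ^ d + 1) ^ r * M := ⟨_, rfl⟩
  have M0 : 0 ≤ M := hM ▸ Nat.cast_nonneg _
  have β0 : 0 ≤ β := by rw [hβ]; positivity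
  refine ⟨M + (M ^ 2 * β + M ^ 3 * (β * β)), by positivity, fun N q q' => ?_⟩
  have h := chain_bound2 (N := N) (W := insert q (insert q' (N ∪ N.biUnion nbA))) (nb := nbA)
    (sb := rb nbA r) (fun x hx => by simp [hx])
    (fun x hx y hy => by
      simp only [mem_insert, mem_union, mem_biUnion]
      exact Or.inr (Or.inr (Or.inr ⟨x, hx, hy⟩))) ((lamp_nice hm).rb_symm r)
    (fun x w => Phi 0 (x.1 - w.1)) (fun _ _ => Phi_nonneg _ _)
    (fun w => by simpa using one_le_Phi hd)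
    (fun w v => by
      rw [sum_nbA v fun x => Phi 0 (v.1 - w.1) - Phi 0 (x - w.1), sum_sub_distrib, sum_const,
        card_nbL, nsmul_eq_mul]
      push_cast
      linarith [Phi_nb hd (Nat.zero_le 8) v.1 w.1])
    (fun x y => M * Phi 1 (x.1 - y.1))
    (fun W x y => by
      simpa only [Phi_comm 0 y.1, hM] using convA hd (j := 0) (k := 0) (by norm_num) W x.1 y.1)
    (q := q) (q' := q') (by simp) (by simp)
  refine h.trans (mul_le_mul_of_nonneg_right ?_ (Nat.cast_nonneg _))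
  generalize insert q (insert q' (N ∪ N.biUnion nbA)) = W
  have cv : ∀ {j k : ℕ}, j + k + 1 ≤ 8 → ∀ x y : BCC d, ∑ a ∈ W, ∑ b ∈ rb nbA r a,
      Phi j (x - a.1) * Phi k (b.1 - y) ≤ β * Phi (j + k + 1) (x - y) :=
    fun h x y => hβ ▸ hM ▸ conv_rb hd r h W x y
  have h1 := Phi_mono hd (by norm_num : 1 ≤ 5) (by norm_num) (q.1 - q'.1)
  have h2 := (cv (j := 1) (k := 1) (by norm_num) q.1 q'.1).trans
    (mul_le_mul_of_nonneg_left
      (Phi_mono hd (by norm_num : 1 + 1 + 1 ≤ 5) (by norm_num) (q.1 - q'.1)) β0)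
  have h3 : ∑ a ∈ W, ∑ u ∈ rb nbA r a, ∑ b ∈ W, ∑ v ∈ rb nbA r b, Phi 1 (q.1 - a.1) *
      Phi 1 (b.1 - q'.1) * Phi 1 (u.1 - v.1) ≤ β * (β * Phi 5 (q.1 - q'.1)) := by
    refine le_trans ?_ (mul_le_mul_of_nonneg_left (cv (j := 1) (k := 3) (by norm_num)
      q.1 q'.1) β0)
    simp only [mul_sum]
    refine sum_le_sum fun a _ => sum_le_sum fun u _ => ?_
    have := mul_le_mul_of_nonneg_left (cv (j := 1) (k := 1) (by norm_num) q'.1 u.1)
      (Phi_nonneg 1 (q.1 - a.1))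
    rw [mul_left_comm, Phi_comm _ q'.1 u.1] at this
    refine le_trans (le_of_eq ?_) this
    simp only [mul_sum]
    refine sum_congr rfl fun b _ => sum_congr rfl fun v _ => ?_
    rw [Phi_comm _ q'.1 b.1, Phi_comm _ v.1 u.1, mul_assoc]
  rw [add_mul, add_mul]
  refine add_le_add (mul_le_mul_of_nonneg_left h1 M0) (add_le_add ?_ ?_)
  · rw [mul_assoc]
    refine le_trans (le_of_eq ?_) (mul_le_mul_of_nonneg_left h2 (by positivity))
    simp only [mul_sum]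
    exact sum_congr rfl fun _ _ => sum_congr rfl fun _ _ => by ring
  · rw [mul_assoc, mul_assoc]
    refine le_trans (le_of_eq ?_) (mul_le_mul_of_nonneg_left h3 (by positivity))
    simp only [mul_sum]
    exact sum_congr rfl fun _ _ => sum_congr rfl fun _ _ => sum_congr rfl fun _ _ =>
      sum_congr rfl fun _ _ => by ring

lemma bad_lamp (hd : d = 20) {μ : ℕ} (hm : m = 2 * μ + 1) (r : ℕ) (A : ℝ) : ∃ K : ℕ,
    ∀ P : Plan (nbA : VV d m → _) (rb nbA r) fun p q => ¬ near K p.1 q.1,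
      (∀ i, ((P.T i).card : ℝ) ≤ A * (K + 1)) → ∀ N,
      nf (For N nbA) (fun f => ¬ P.Good f) ≤ 1 / 2 * (For N nbA).card := by
  obtain ⟨C, hC⟩ := Phi_tail hd
  obtain ⟨C', C0, hC'⟩ := chain_lamp hd hm r
  obtain ⟨K, hK⟩ := exists_nat_ge (2 * (4 * A) ^ 2 * (C' * |C|))
  refine ⟨K, fun P hP N => ?_⟩
  have hZ : (0 : ℝ) ≤ (For N nbA).card := Nat.cast_nonneg _
  obtain ⟨S, hS⟩ : ∃ S, S = univ.biUnion P.T := ⟨_, rfl⟩
  have h1 : ∀ p p' : VV d m, nf (For N nbA)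
      (fun f => ¬ near K p.1 p'.1 ∧ Chain (rb nbA r) p p' f) ≤
      C' * |C| / ((K : ℝ) + 1) ^ 3 * (For N nbA).card := by
    intro p p'
    by_cases h : near K p.1 p'.1
    · refine le_trans (le_of_eq ?_) (by positivity : (0 : ℝ) ≤ _)
      simp [nf, h]
    · refine (nf_mono fun f _ h => h.2).trans ((hC' N _ _).trans ?_)
      refine mul_le_mul_of_nonneg_right ?_ hZ
      rw [mul_div_assoc, Phi_comm]
      refine mul_le_mul_of_nonneg_left ((hC K _ _ h).trans ?_) C0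
      gcongr
      exact le_abs_self C
  have h2 : nf (For N nbA) (fun f => ¬ P.Good f) ≤ ∑ p ∈ S, ∑ p' ∈ S,
      nf (For N nbA) (fun f => ¬ near K p.1 p'.1 ∧ Chain (rb nbA r) p p' f) := by
    refine le_trans (nf_mono fun f _ h => ?_) ((nf_exists_le _ _ _).trans
      (sum_le_sum fun p _ => nf_exists_le _ _ _))
    simp only [Plan.Good, not_forall, not_not] at h
    obtain ⟨i, j, p, q, v1, v2, h1, h2⟩ := h
    exact ⟨_, hS ▸ mem_biUnion.mpr ⟨i, mem_univ _, v1⟩, _,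
      hS ▸ mem_biUnion.mpr ⟨j, mem_univ _, v2⟩, h1, h2⟩
  refine h2.trans ((sum_le_sum fun p _ => sum_le_sum fun p' _ => h1 p p').trans ?_)
  simp only [sum_const, nsmul_eq_mul, ← mul_assoc]
  refine mul_le_mul_of_nonneg_right ?_ hZ
  have h3 : (S.card : ℝ) ≤ 4 * A * (K + 1) := by
    have h4 : (S.card : ℝ) ≤ ∑ i, ((P.T i).card : ℝ) := by
      rw [hS]; exact_mod_cast card_biUnion_le
    refine h4.trans ((sum_le_sum fun i _ => hP i).trans (le_of_eq ?_))
    simp [mul_assoc]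
  have h4 : (S.card : ℝ) * S.card ≤ (4 * A * (K + 1)) ^ 2 := by
    rw [← sq]; gcongr
  refine (mul_le_mul_of_nonneg_right h4 (by positivity)).trans ?_
  generalize (C' * |C| : ℝ) = B at hK ⊢
  generalize (4 * A : ℝ) = A at hK ⊢
  have e : (A * (K + 1)) ^ 2 * (B / ((K : ℝ) + 1) ^ 3) = A ^ 2 * B / (K + 1) := by
    field_simp
  rw [e, div_le_iff₀ (by positivity)]
  linarith

end Pool.Agent.P.MP_a28080_pr.R
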