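import Pool.Agent.P.MP_a28080_pr.R.Lim
import Pool.Agent.P.MP_a28080_pr.Cocycle

/-! The king graph: the sentence fails for every radius. -/

namespace Pool.Agent.P.MP_a28080_pr.R

open Finset Filter

variable {d : ℕ}

/-- neighbours in the king graph -/
noncomputable def nbK (a : Fin d → ℤ) : Finset (Fin d → ℤ) :=
  (Fintype.piFinset fun j => Icc (a j - 1) (a j + 1)).erase a

/-- the king graph -/
def kingG (d : ℕ) : SimpleGraph (Fin d → ℤ) where
  Adj a b := a ≠ b ∧ king a b
  symm := ⟨fun _ _ h => ⟨h.1.symm, fun j => by have := h.2 j; omega⟩⟩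
  loopless := ⟨fun _ h => h.1 rfl⟩

/-- sup distance at most `n` -/
def nr (n : ℕ) (a b : Fin d → ℤ) : Prop := ∀ j, (b j - a j).natAbs ≤ n

lemma nr_step {n : ℕ} {a b : Fin d → ℤ} (h : nr (n + 1) a b) : ∃ x, king a x ∧ nr n x b := by
  refine ⟨fun j => if a j < b j then a j + 1 else if b j < a j then a j - 1 else a j,
    fun j => ?_, fun j => ?_⟩
  · dsimp only; split_ifs <;> omega
  · have := h j; dsimp only; split_ifs <;> omega

lemma kwalk {n : ℕ} {a b : Fin d → ℤ} (h : nr n a b) :
    ∃ p : (kingG d).Walk a b, p.length ≤ n := by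
  induction n generalizing a with
  | zero =>
    obtain rfl : a = b := funext fun j => by have := h j; omega
    exact ⟨.nil, le_rfl⟩
  | succ n ih =>
    obtain ⟨x, h1, h2⟩ := nr_step h
    obtain ⟨p, hp⟩ := ih h2
    by_cases hx : a = x
    · subst hx; exact ⟨p, by omega⟩
    · exact ⟨.cons ⟨hx, h1⟩ p, Nat.succ_le_succ hp⟩

lemma nr_of_walk {a b : Fin d → ℤ} (p : (kingG d).Walk a b) : nr p.length a b := by
  induction p with
  | nil => intro j; simp
  | cons h p ih =>
    intro j
    have := h.2 j
    have := ih j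
    rw [SimpleGraph.Walk.length_cons]
    omega

lemma exists_nr (a b : Fin d → ℤ) : ∃ n, nr n a b :=
  ⟨univ.sup fun j => (b j - a j).natAbs,
    fun j => le_sup (f := fun j => (b j - a j).natAbs) (mem_univ j)⟩

lemma king_conn : (kingG d).Connected := by
  refine ⟨fun u v => ?_⟩
  obtain ⟨n, hn⟩ := exists_nr u v
  obtain ⟨p, -⟩ := kwalk hn
  exact ⟨p⟩

lemma kdist {n : ℕ} {a b : Fin d → ℤ} : (kingG d).dist a b ≤ n ↔ nr n a b := by
  constructor
  · intro h j
    obtain ⟨p, hp⟩ := king_conn.exists_walk_length_eq_dist a b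
    exact (nr_of_walk p j).trans (hp ▸ h)
  · intro h
    obtain ⟨p, hp⟩ := kwalk h
    exact (SimpleGraph.dist_le p).trans hp

lemma king_adj (u v : Fin d → ℤ) : (kingG d).Adj u v ↔ v ∈ nbK u := by
  simp only [nbK, mem_erase, Fintype.mem_piFinset, mem_Icc]
  exact and_congr ne_comm (forall_congr' fun j => by omega)

/-- translations -/
def kshift (c : Fin d → ℤ) : kingG d ≃g kingG d :=
  ⟨Equiv.addRight c, by intro a b; simp [kingG, king]⟩

lemma king_nice [NeZero d] : Nice (kingG d) nbK := by
  refine ⟨king_adj, king_conn, inferInstance, inferInstance, ⟨3 ^ d, fun v => ?_⟩, fun a b => ?_⟩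
  · refine card_erase_le.trans ?_
    rw [Fintype.card_piFinset]
    refine (prod_le_pow_card _ _ 3 fun j _ => ?_).trans (by simp)
    rw [Int.card_Icc]
    omega
  · obtain ⟨n, hn⟩ := exists_nr a b
    refine ⟨kshift (b - a), (add_sub_cancel a b : a + (b - a) = b), n, fun v => kdist.mpr ?_⟩
    intro j
    have e : (kshift (b - a) v) j = v j + (b j - a j) := rfl
    rw [e, add_sub_cancel_left]
    exact hn j

lemma king_dim [NeZero d] : DimTrans (kingG d) d := by
  refine ⟨inferInstance, inferInstance, king_conn, fun v => ?_, fun u v => ?_,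
    1, 3 ^ d, one_pos, one_le_pow₀ (by norm_num), fun v n hn => ?_⟩
  · exact (nbK v).finite_toSet.subset fun x hx => (king_adj _ _).mp hx
  · exact ⟨kshift (v - u), (add_sub_cancel u v : u + (v - u) = v)⟩
  · have e : gball (kingG d) v n = (Fintype.piFinset fun j => Icc (v j - n) (v j + n) :
        Finset (Fin d → ℤ)) := by
      ext w
      simp only [gball, kdist, Set.mem_ofPred_eq, mem_coe, Fintype.mem_piFinset, mem_Icc, nr]
      exact forall_congr' fun j => by omega
    have e2 : ∀ j, (Icc (v j - n) (v j + n)).card = 2 * n + 1 := fun j => by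
      rw [Int.card_Icc]; omega
    rw [e, Set.ncard_coe_finset, Fintype.card_piFinset]
    simp only [e2, prod_const, card_univ, Fintype.card_fin, one_mul, ← mul_pow]
    push_cast
    have : (1 : ℝ) ≤ n := by exact_mod_cast hn
    constructor <;> gcongr <;> linarith

theorem king_not_psi {F : SimpleGraph (Fin d → ℤ)} (hF : F ≤ kingG d) {r : ℕ} (hr : 1 ≤ r) :
    ¬ Sat (compGraph (kingG d) F r) psi := by
  classical
  rw [sat_psi]
  rintro ⟨x, y, z, z', hxy, hxz, hzz, hzy, hzy', hzx', hno⟩
  let f : F.ConnectedComponent → F.ConnectedComponent → ZMod 2 := fun K K' =>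
    if (K = x ∧ K' ≠ x ∧ K' ≠ y) ∨ (K' = x ∧ K ≠ x ∧ K ≠ y) then 1 else 0
  have hne : x ≠ y := hxy.ne
  have hs : ∀ {a b : Fin d → ℤ}, nr r a b → nr r b a := fun h j => by have := h j; omega
  have hno' : ∀ a b c : Fin d → ℤ, F.connectedComponentMk a = x → F.connectedComponentMk b = y →
      F.connectedComponentMk c ≠ x → F.connectedComponentMk c ≠ y → nr r c a → nr r c b →
      False := fun a b c ha hb hc hc' h1 h2 =>
    hno _ ⟨⟨hc, c, a, rfl, ha, kdist.mpr h1⟩, ⟨hc', c, b, rfl, hb, kdist.mpr h2⟩⟩
  have tri : ∀ a b c : Fin d → ℤ, nr r a b → nr r b c → nr r a c →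
      f (F.connectedComponentMk a) (F.connectedComponentMk c) =
        f (F.connectedComponentMk a) (F.connectedComponentMk b) +
        f (F.connectedComponentMk b) (F.connectedComponentMk c) := by
    intro a b c h1 h2 h3
    have n1 := hno' a b c
    have n2 := hno' a c b
    have n3 := hno' b a c
    have n4 := hno' b c a
    have n5 := hno' c a b
    have n6 := hno' c b a
    simp only [h1, h2, h3, hs h1, hs h2, hs h3, forall_true_left] at n1 n2 n3 n4 n5 n6
    have two : (1 : ZMod 2) + 1 = 0 := by decide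
    generalize F.connectedComponentMk a = A at *
    generalize F.connectedComponentMk b = B at *
    generalize F.connectedComponentMk c = C at *
    simp only [f]
    clear hno hno' hs h1 h2 h3 hxz hzz hzy hzy' hzx' hxy f
    by_cases a1 : A = x <;> by_cases a2 : A = y <;> by_cases b1 : B = x <;>
      by_cases b2 : B = y <;> by_cases c1 : C = x <;> by_cases c2 : C = y <;> simp_all
  have k1 : ∀ {a b : Fin d → ℤ}, king a b → nr r a b := fun h j => (h j).trans hr
  obtain ⟨g, hg⟩ := potential
    (fun a b => f (F.connectedComponentMk a) (F.connectedComponentMk b))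
    fun a b c h1 h2 h3 => tri _ _ _ (k1 h1) (k1 h2) (k1 h3)
  have two : ∀ x : ZMod 2, x + x = 0 := by decide
  have g2 : ∀ n, n ≤ r → ∀ u v : Fin d → ℤ, nr n u v →
      f (F.connectedComponentMk u) (F.connectedComponentMk v) = g u + g v := by
    intro n
    induction n with
    | zero => exact fun _ u v h => hg u v fun j => (h j).trans (Nat.zero_le _)
    | succ n ih =>
      intro hn u v h
      obtain ⟨m, hm, hm'⟩ := nr_step h
      rw [tri u m v (k1 hm) (fun j => (hm' j).trans (by omega)) fun j => (h j).trans hn,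
        hg _ _ hm, ih (by omega) _ _ hm']
      linear_combination two (g m)
  have g3 : ∀ u v : Fin d → ℤ, F.Reachable u v → g u = g v := by
    rintro u v ⟨p⟩
    induction p with
    | nil => rfl
    | @cons a b c h p ih =>
      have e := hg a b (hF h).2
      rw [SimpleGraph.ConnectedComponent.connectedComponentMk_eq_of_adj h] at e
      have : f (F.connectedComponentMk b) (F.connectedComponentMk b) = 0 := by
        simp only [f]; rw [if_neg]; tauto
      rw [← ih]
      linear_combination this - e - two (g b)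
  have g4 : ∀ K K', (compGraph (kingG d) F r).Adj K K' → f K K' = g K.out + g K'.out := by
    rintro K K' ⟨-, u, v, rfl, rfl, h⟩
    rw [g2 r le_rfl u v (kdist.mp h),
      g3 u _ (SimpleGraph.ConnectedComponent.exact (Quot.out_eq _).symm),
      g3 v _ (SimpleGraph.ConnectedComponent.exact (Quot.out_eq _).symm)]
  have e1 := g4 _ _ hxy
  have e2 := g4 _ _ hxz
  have e3 := g4 _ _ hzz
  have e4 := g4 _ _ hzy
  have q1 := hxz.ne'
  have q2 := hzy.ne
  have f1 : f x y = 0 := by simp [f, hne.symm]
  have f2 : f x z = 1 := by simp [f, q1, hzy']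
  have f3 : f z z' = 0 := by simp [f, q1, hzx']
  have f4 : f z' y = 0 := by simp [f, hzx', hne.symm]
  have : (1 : ZMod 2) = 0 := by
    linear_combination e1 + e2 + e3 + e4 - f1 - f2 - f3 - f4 + two (g x.out) + two (g y.out) +
      two (g z.out) + two (g z'.out)
  exact absurd this (by decide)

theorem king_usf [NeZero d] : ∃ μ, IsUSF (kingG d) μ := by
  obtain ⟨μ, h, -⟩ := (king_nice (d := d)).exists_usf 0 (E := Set.univ) (by simp) one_pos
    (Eventually.of_forall fun n => by
      have hZ : (0 : ℝ) < (For (rb nbK n (0 : Fin d → ℤ)) nbK).card := by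
        exact_mod_cast (king_nice.wired_ne _).card_pos
      simp only [Set.mem_univ, nf_true]
      rw [div_self hZ.ne'])
  exact ⟨μ, h⟩

end Pool.Agent.P.MP_a28080_pr.R
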