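import Pool.Agent.P.MP_a28080_pr.R.Surg

/-! The lattice with lamps on the edges of a torus. -/

namespace Pool.Agent.P.MP_a28080_pr.R

open Finset Filter

/-- restriction of a graph to a vertex set -/
def res {V : Type} (G : SimpleGraph V) (S : Set V) : SimpleGraph V where
  Adj x y := G.Adj x y ∧ x ∈ S ∧ y ∈ S
  symm := ⟨fun _ _ h => ⟨h.1.symm, h.2.2, h.2.1⟩⟩
  loopless := ⟨fun _ h => h.1.ne rfl⟩

lemma res_le {V : Type} (G : SimpleGraph V) (S : Set V) : res G S ≤ G := fun _ _ h => h.1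

lemma conn_of_res {V : Type} {G : SimpleGraph V} {S : Set V} {o : V} (ho : o ∈ S)
    (h : ∀ v ∈ S, (res G S).Reachable v o) : (G.induce S).Connected := by
  rw [SimpleGraph.connected_iff_exists_forall_reachable]
  refine ⟨⟨o, ho⟩, fun w => .symm ?_⟩
  obtain ⟨w, hw⟩ := w
  obtain ⟨p⟩ := h w hw
  clear h
  induction p with
  | nil => rfl
  | cons h p ih =>
    exact (SimpleGraph.Adj.reachable (G := G.induce S) (u := ⟨_, hw⟩) (v := ⟨_, h.2.2⟩) h.1).trans
      (ih ho h.2.2)

lemma hom_dist_le {V W : Type} {G : SimpleGraph V} {H : SimpleGraph W} (hc : G.Connected)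
    (f : G →g H) (a b : V) : H.dist (f a) (f b) ≤ G.dist a b := by
  obtain ⟨p, hp⟩ := hc.exists_walk_length_eq_dist a b
  exact (SimpleGraph.dist_le (p.map f)).trans (by rw [SimpleGraph.Walk.length_map, hp])

variable {d m : ℕ}

lemma box_reach [NeZero d] {lo hi : Fin d → ℤ} (hlh : ∀ j, lo j < hi j) {P : Set (BCC d)}
    (hP : ∀ v : BCC d, (∀ j, lo j ≤ v.1 j ∧ v.1 j ≤ hi j) → v ∈ P) {u v : BCC d}
    (hu : ∀ j, lo j ≤ u.1 j ∧ u.1 j ≤ hi j) (hv : ∀ j, lo j ≤ v.1 j ∧ v.1 j ≤ hi j) :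
    (res (bccG d) P).Reachable u v := by
  obtain ⟨n, hn⟩ := exists_near u v
  induction n generalizing u with
  | zero => exact near_zero.mp hn ▸ .refl _
  | succ n ih =>
    by_cases hne : u = v
    · exact hne ▸ .refl _
    let ε : Fin d → Bool := fun j => decide (u.1 j < v.1 j ∨ (u.1 j = v.1 j ∧ u.1 j < hi j))
    have h1 : ∀ j, lo j ≤ (u + st ε).1 j ∧ (u + st ε).1 j ≤ hi j := by
      intro j
      have := hu j
      have := hv j
      have := hlh j
      simp only [AddSubgroup.coe_add, Pi.add_apply, st_val, ε, decide_eq_true_eq]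
      split_ifs <;> omega
    refine (SimpleGraph.Adj.reachable (show (res (bccG d) P).Adj u (u + st ε) from
      ⟨add_st_mem u ε, hP _ hu, hP _ h1⟩)).trans (ih h1 fun j => ?_)
    have h1 := hn j
    simp only [AddSubgroup.coe_add, Pi.add_apply, st_val, ε, decide_eq_true_eq]
    by_cases hn0 : n = 0
    · obtain ⟨i, hi⟩ : ∃ i, u.1 i ≠ v.1 i := by
        by_contra hc
        simp only [ne_eq, not_exists, not_not] at hc
        exact hne (Subtype.ext (funext hc))
      have := hn i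
      have := par u i j
      have := par v i j
      split_ifs <;> omega
    · split_ifs <;> omega

/-- lamp positions -/
abbrev Lab (d m : ℕ) := Fin d → ZMod m

/-- vertices -/
abbrev VV (d m : ℕ) := BCC d × (Lab d m → Bool)

/-- the lamp on an edge -/
def lab (m : ℕ) (v w : BCC d) : Lab d m := fun j => ((v.1 j + w.1 j : ℤ) : ZMod m)

lemma lab_comm (v w : BCC d) : lab m v w = lab m w v := by
  funext j; simp only [lab, add_comm]

variable [NeZero d] [NeZero m]

/-- the lamp graph -/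
def lampG (d m : ℕ) [NeZero d] : SimpleGraph (VV d m) where
  Adj p q := (bccG d).Adj p.1 q.1 ∧ ∀ a, a ≠ lab m p.1 q.1 → p.2 a = q.2 a
  symm := ⟨fun p q h => ⟨h.1.symm, fun a ha => (h.2 a (lab_comm p.1 q.1 ▸ ha)).symm⟩⟩
  loopless := ⟨fun _ h => h.1.ne rfl⟩

/-- neighbours in the lamp graph -/
noncomputable def nbA (p : VV d m) : Finset (VV d m) :=
  (nbL p.1 ×ˢ univ).filter fun q => ∀ a, a ≠ lab m p.1 q.1 → p.2 a = q.2 a

lemma lamp_adj (p q : VV d m) : (lampG d m).Adj p q ↔ q ∈ nbA p := by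
  simp only [nbA, mem_filter, mem_product, mem_univ, and_true]
  rfl

omit [NeZero d] in
lemma sum_nbA (p : VV d m) (F : BCC d → ℝ) : ∑ q ∈ nbA p, F q.1 = 2 * ∑ w ∈ nbL p.1, F w := by
  rw [nbA, sum_filter, sum_product, mul_sum]
  refine sum_congr rfl fun w _ => ?_
  dsimp only
  rw [← sum_filter, sum_const, nsmul_eq_mul]
  congr 1
  have e : (univ.filter fun τ : Lab d m → Bool => ∀ a, a ≠ lab m p.1 w → p.2 a = τ a) =
      univ.image (Function.update p.2 (lab m p.1 w)) := by
    ext τ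
    simp only [mem_filter, mem_univ, true_and, mem_image]
    constructor
    · intro h
      exact ⟨τ _, Function.update_eq_iff.mpr ⟨rfl, h⟩⟩
    · rintro ⟨b, rfl⟩ a ha
      rw [Function.update_of_ne ha]
  rw [e, card_image_of_injective _ (Function.update_injective _ _)]
  simp

/-- the projection -/
def prj : lampG d m →g bccG d := ⟨Prod.fst, fun h => h.1⟩

/-- a sheet -/
def sheet (σ : Lab d m → Bool) : bccG d →g lampG d m := ⟨fun v => (v, σ), fun h => ⟨h, fun _ _ => rfl⟩⟩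

omit [NeZero m] in
lemma lift_reach {P : Set (BCC d)} {S : Set (VV d m)} {σ : Lab d m → Bool}
    (hS : ∀ v ∈ P, (v, σ) ∈ S) {u v : BCC d} (h : (res (bccG d) P).Reachable u v) :
    (res (lampG d m) S).Reachable (u, σ) (v, σ) :=
  h.map (⟨fun v => (v, σ), fun h => ⟨⟨h.1, fun _ _ => rfl⟩, hS _ h.2.1, hS _ h.2.2⟩⟩ :
    res (bccG d) P →g res (lampG d m) S)

lemma cyl_reach {P : Set (BCC d)} {o : BCC d} (hP : ∀ v ∈ P, (res (bccG d) P).Reachable v o)
    {Fr : Lab d m → Prop} (hfr : ∀ a, Fr a → ∃ v ∈ P, ∃ w ∈ P, w ∈ nbL v ∧ lab m v w = a)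
    (τ : Lab d m → Bool) {p : VV d m} (h1 : p.1 ∈ P) (h2 : ∀ a, ¬ Fr a → p.2 a = τ a) :
    (res (lampG d m) {q | q.1 ∈ P ∧ ∀ a, ¬ Fr a → q.2 a = τ a}).Reachable p (o, τ) := by
  obtain ⟨v, σ⟩ := p
  induction hn : (univ.filter fun a => σ a ≠ τ a).card generalizing v σ with
  | zero =>
    obtain rfl : σ = τ := funext fun a => by
      by_contra h
      exact (card_pos.mpr ⟨a, mem_filter.mpr ⟨mem_univ a, h⟩⟩).ne' hn
    exact lift_reach (fun _ h => And.intro h h2) (hP v h1)
  | succ n ih =>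
    obtain ⟨a, ha⟩ := card_pos.mp (hn.symm ▸ Nat.succ_pos n : 0 < (univ.filter fun a => σ a ≠ τ a).card)
    have ha' := (mem_filter.mp ha).2
    obtain ⟨x, hx, y, hy, hxy, rfl⟩ := hfr a (by_contra fun h => ha' (h2 a h))
    have h3 : ∀ a, ¬ Fr a → Function.update σ (lab m x y) (τ (lab m x y)) a = τ a := by
      intro a ha
      by_cases h : a = lab m x y
      · rw [h, Function.update_self]
      · rw [Function.update_of_ne h]; exact h2 a ha
    have h4 : (res (lampG d m) {q | q.1 ∈ P ∧ ∀ a, ¬ Fr a → q.2 a = τ a}).Adj (x, σ)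
        (y, Function.update σ (lab m x y) (τ (lab m x y))) :=
      ⟨⟨hxy, fun a ha => (Function.update_of_ne ha _ _).symm⟩, ⟨hx, h2⟩, hy, h3⟩
    refine (lift_reach (fun _ h => And.intro h h2) ((hP v h1).trans (hP x hx).symm)).trans
      (h4.reachable.trans (ih _ _ hy h3 ?_))
    have e : (univ.filter fun a => Function.update σ (lab m x y) (τ (lab m x y)) a ≠ τ a) =
        (univ.filter fun a => σ a ≠ τ a).erase (lab m x y) := by
      ext a
      by_cases h : a = lab m x y
      · simp [h]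
      · simp [h]
    rw [e, card_erase_of_mem ha, hn]
    rfl

omit [NeZero d] in
/-- every lamp sits on an edge near any point of `m` times the lattice -/
lemma exists_edge {μ : ℕ} (hm : m = 2 * μ + 1) (c : Fin d → ℤ) (a : Lab d m) :
    ∃ v w : BCC d, w ∈ nbL v ∧ lab m v w = a ∧
      ∀ j, (v.1 j - 2 * m * c j).natAbs ≤ μ + 1 ∧ (w.1 j - 2 * m * c j).natAbs ≤ μ + 1 := by
  have h : ∀ j, ∃ x y : ℤ, x % 2 = 0 ∧ (y - x).natAbs = 1 ∧ ((x + y : ℤ) : ZMod m) = a j ∧
      (x - 2 * m * c j).natAbs ≤ μ + 1 ∧ (y - 2 * m * c j).natAbs ≤ μ + 1 := by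
    intro j
    have h1 := ZMod.val_lt (a j)
    obtain ⟨n, hn, h2, h3⟩ : ∃ n : ℤ, (n : ZMod m) = a j ∧ n % 2 = 1 ∧ n.natAbs ≤ m := by
      by_cases h : (a j).val % 2 = 1
      · exact ⟨(a j).val, by simp, by omega, by omega⟩
      · exact ⟨(a j).val - m, by simp, by omega, by omega⟩
    have e : ∀ x y : ℤ, x + y = n + m * (4 * c j) → ((x + y : ℤ) : ZMod m) = a j := by
      intro x y h
      rw [h, ← hn]
      simp
    obtain ⟨t, ht⟩ : ∃ t : ℤ, t = m * c j := ⟨_, rfl⟩
    have e1 : 2 * (m : ℤ) * c j = 2 * t := by rw [ht]; ring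
    have e2 : (m : ℤ) * (4 * c j) = 4 * t := by rw [ht]; ring
    rw [e2] at e
    rw [e1]
    by_cases h : n % 4 = 1
    · exact ⟨(n - 1) / 2 + 2 * t, (n + 1) / 2 + 2 * t, by omega, by omega, e _ _ (by omega),
        by omega, by omega⟩
    · exact ⟨(n + 1) / 2 + 2 * t, (n - 1) / 2 + 2 * t, by omega, by omega, e _ _ (by omega),
        by omega, by omega⟩
  choose x y h1 h2 h3 h4 using h
  refine ⟨⟨x, fun i j => by rw [h1, h1]⟩, ⟨y, fun i j => ?_⟩, mem_nbL.mpr h2, funext h3, h4⟩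
  have := h1 i
  have := h1 j
  have := h2 i
  have := h2 j
  omega

lemma lamp_conn {μ : ℕ} (hm : m = 2 * μ + 1) : (lampG d m).Connected := by
  rw [SimpleGraph.connected_iff_exists_forall_reachable]
  refine ⟨(0, fun _ => false), fun p => .symm ?_⟩
  refine (cyl_reach (P := Set.univ) (o := 0) (Fr := fun _ => True) (fun v _ => ?_) (fun a _ => ?_)
    (fun _ => false) trivial fun _ h => (h trivial).elim).mono (res_le _ _)
  · exact (bccG_conn v 0).mono fun _ _ h => ⟨h, trivial, trivial⟩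
  · obtain ⟨v, w, h1, h2, -⟩ := exists_edge hm 0 a
    exact ⟨v, trivial, w, trivial, h1, h2⟩

/-- twice a lattice vector, as a lamp position -/
def dbl (m : ℕ) (u : BCC d) : Lab d m := fun j => ((2 * u.1 j : ℤ) : ZMod m)

omit [NeZero d] [NeZero m] in
lemma lab_add (v w u : BCC d) : lab m (v + u) (w + u) = lab m v w + dbl m u := by
  funext j
  simp only [lab, dbl, AddSubgroup.coe_add, Pi.add_apply]
  push_cast
  ring

/-- automorphisms -/
def laut (u : BCC d) (ρ : Lab d m → Bool) : lampG d m ≃g lampG d m where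
  toFun p := (p.1 + u, fun a => xor (p.2 (a - dbl m u)) (ρ a))
  invFun p := (p.1 - u, fun a => xor (p.2 (a + dbl m u)) (ρ (a + dbl m u)))
  left_inv p := by simp
  right_inv p := by simp
  map_rel_iff' := by
    intro p q
    change (bccG d).Adj (p.1 + u) (q.1 + u) ∧ (∀ a, a ≠ lab m (p.1 + u) (q.1 + u) →
      xor (p.2 (a - dbl m u)) (ρ a) = xor (q.2 (a - dbl m u)) (ρ a)) ↔ (bccG d).Adj p.1 q.1 ∧ _
    refine and_congr (by simp [bccG_adj, mem_nbL]) ⟨fun h a ha => ?_, fun h a ha => ?_⟩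
    · simpa using h (a + dbl m u) (by rw [lab_add]; simpa using ha)
    · rw [h _ fun e => ha (by rw [lab_add, ← e, sub_add_cancel])]

omit [NeZero m] in
lemma laut_trans (p q : VV d m) : ∃ ρ, laut (q.1 - p.1) ρ p = q :=
  ⟨fun a => xor (p.2 (a - dbl m (q.1 - p.1))) (q.2 a), Prod.ext (add_sub_cancel p.1 q.1)
    (funext fun a => by
      change xor _ (xor _ _) = _
      simp)⟩

lemma lamp_nice {μ : ℕ} (hm : m = 2 * μ + 1) : Nice (lampG d m) nbA := by
  have hc := lamp_conn (d := d) hm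
  have : Infinite (BCC d) := Infinite.of_injective _ ell_inj
  refine ⟨lamp_adj, hc, inferInstance, inferInstance, ⟨2 * 2 ^ d, fun v => ?_⟩, fun p q => ?_⟩
  · have := sum_nbA v fun _ => 1
    simp only [sum_const, card_nbL, nsmul_eq_mul, mul_one] at this
    exact_mod_cast this.le
  · obtain ⟨ρ, h⟩ := laut_trans p q
    obtain ⟨n, hn⟩ := exists_near p.1 q.1
    obtain ⟨L, hL⟩ : ∃ L, ∀ σ : Lab d m → Bool, (lampG d m).dist (0, fun _ => false) (0, σ) ≤ L :=
      ⟨univ.sup fun σ => (lampG d m).dist (0, fun _ => false) (0, σ),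
        fun σ => le_sup (f := fun σ => (lampG d m).dist (0, fun _ => false) (0, σ)) (mem_univ σ)⟩
    have hL' : ∀ (v : BCC d) σ τ, (lampG d m).dist (v, σ) (v, τ) ≤ L := by
      intro v σ τ
      obtain ⟨ρ, h⟩ := laut_trans (0, fun _ => false) (v, σ)
      obtain ⟨⟨w, τ'⟩, h'⟩ := (laut (v - 0) ρ).surjective (v, τ)
      obtain rfl : w = 0 := by
        have : w + (v - 0) = v := congrArg Prod.fst h'
        simpa using this
      rw [← h, ← h']
      exact (hom_dist_le hc (laut (v - 0) ρ).toHom _ _).trans (hL τ')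
    refine ⟨_, h, n + L, fun v => ?_⟩
    refine (hc.dist_triangle (v := (v.1 + (q.1 - p.1), v.2))).trans (add_le_add ?_ (hL' _ _ _))
    refine (hom_dist_le bccG_conn (sheet v.2) _ _).trans (dist_le_iff.mpr fun j => ?_)
    simpa using hn j

lemma lamp_dim {μ : ℕ} (hm : m = 2 * μ + 1) : DimTrans (lampG d m) d := by
  have hN := lamp_nice (d := d) hm
  obtain ⟨-, -, -, -, -, c, C, h1, h2, h3⟩ := bccG_dim (d := d)
  have hM : (1 : ℝ) ≤ Fintype.card (Lab d m → Bool) := by exact_mod_cast Fintype.card_pos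
  refine ⟨hN.cnt, hN.inf, hN.conn, fun v => ?_, fun u v => ?_, c,
    C * Fintype.card (Lab d m → Bool), h1, h2.trans (le_mul_of_one_le_right (by linarith) hM),
    fun p n hn => ?_⟩
  · exact (nbA v).finite_toSet.subset fun x hx => (lamp_adj _ _).mp hx
  · obtain ⟨g, hg, -⟩ := hN.aut u v
    exact ⟨g, hg⟩
  have e : gball (bccG d) p.1 n = box p.1 n := by
    ext w; simp [gball, dist_le_iff, mem_box]
  have hsub : gball (lampG d m) p n ⊆ (box p.1 n ×ˢ univ : Finset (VV d m)) := by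
    intro q hq
    simp only [coe_product, Set.mem_prod, mem_coe, mem_box, mem_univ, and_true]
    exact dist_le_iff.mp ((hom_dist_le hN.conn prj p q).trans hq)
  obtain ⟨h4, h5⟩ := h3 p.1 n hn
  constructor
  · refine h4.trans (Nat.cast_le.mpr (Set.ncard_le_ncard_of_injOn (fun v => (v, p.2))
      (fun v hv => (hom_dist_le bccG_conn (sheet p.2) p.1 v).trans hv)
      (fun _ _ _ _ h => congrArg Prod.fst h) ((Finset.finite_toSet _).subset hsub)))
  · refine (Nat.cast_le.mpr (Set.ncard_le_ncard hsub (Finset.finite_toSet _))).trans ?_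
    rw [e, Set.ncard_coe_finset] at h5
    rw [Set.ncard_coe_finset, card_product, card_univ, mul_right_comm]
    push_cast
    gcongr

end Pool.Agent.P.MP_a28080_pr.R
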