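import Pool.Agent.P.MP_a28080_pr.R.Gen

/-! Existence of the limit measure on nice graphs. -/

namespace Pool.Agent.P.MP_a28080_pr.R

open Finset Filter Topology MeasureTheory

variable {V : Type} [DecidableEq V] {G : SimpleGraph V} {nb : V → Finset V}

omit [DecidableEq V] in
lemma Nice.sum_aut (hG : Nice G nb) (g : G ≃g G) (v : V) (F : V → ℝ) :
    ∑ z ∈ nb (g v), F z = ∑ z ∈ nb v, F (g z) := by
  symm
  refine sum_equiv g.toEquiv (fun z => ?_) fun _ _ => rfl
  rw [← hG.adj, ← hG.adj]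
  exact g.map_adj_iff.symm

omit [DecidableEq V] in
lemma Nice.walk_bound (hG : Nice G nb) (φ : V → ℝ) {S : ℝ} {a w : V} (p : G.Walk a w)
    (h : ∀ x ∈ p.support, ∑ z ∈ nb x, (φ x - φ z) ^ 2 ≤ S) :
    |φ a - φ w| ≤ p.length * √S := by
  induction p with
  | nil => simp
  | @cons x y z hxy p ih =>
    have h1 := ih fun u hu => h u (by simp [hu])
    have h2 : |φ x - φ y| ≤ √S := Real.abs_le_sqrt ((single_le_sum
      (f := fun z => (φ x - φ z) ^ 2) (fun _ _ => sq_nonneg _) ((hG.adj _ _).mp hxy)).trans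
      (h x (by simp)))
    have h3 := abs_sub_le (φ x) (φ y) (φ z)
    rw [SimpleGraph.Walk.length_cons]
    push_cast
    linarith

lemma Nice.energy (hG : Nice G nb) (g : V → V) {L : ℕ} (hL : ∀ v, G.dist v (g v) ≤ L) :
    ∃ C : ℝ, ∀ (φ : V → ℝ) (K : Finset V),
      ∑ x ∈ K.biUnion (rb nb L), ∑ z ∈ nb x, (φ x - φ z) ^ 2 ≤ 4 →
      ∑ v ∈ K, (φ v - φ (g v)) ^ 2 ≤ C := by
  obtain ⟨β, hβ⟩ := hG.card_rb L
  refine ⟨(L : ℝ) ^ 2 * (|β| * 4), fun φ K h => ?_⟩
  obtain ⟨D, hD⟩ : ∃ D : V → ℝ, D = fun x => ∑ z ∈ nb x, (φ x - φ z) ^ 2 := ⟨_, rfl⟩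
  have D0 : ∀ x, 0 ≤ D x := fun x => by rw [hD]; exact sum_nonneg fun _ _ => sq_nonneg _
  have h1 : ∀ v, (φ v - φ (g v)) ^ 2 ≤ (L : ℝ) ^ 2 * ∑ x ∈ rb nb L v, D x := by
    intro v
    obtain ⟨p, hp⟩ := (mem_rb_walk hG.adj).mp (hG.mem_rb.mpr (hL v))
    have h2 := hG.walk_bound φ (S := ∑ x ∈ rb nb L v, D x) p fun x hx => by
      have : x ∈ rb nb L v := (mem_rb_walk hG.adj).mpr
        ⟨p.takeUntil x hx, (p.length_takeUntil_le_length hx).trans hp⟩
      have h3 := single_le_sum (fun x _ => D0 x) this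
      rwa [hD] at h3 ⊢
    have h3 : |φ v - φ (g v)| ≤ L * √(∑ x ∈ rb nb L v, D x) :=
      h2.trans (mul_le_mul_of_nonneg_right (by exact_mod_cast hp) (Real.sqrt_nonneg _))
    rw [← sq_abs, ← Real.sq_sqrt (sum_nonneg fun x _ => D0 x), ← mul_pow]
    exact pow_le_pow_left₀ (abs_nonneg _) h3 2
  refine (sum_le_sum fun v _ => h1 v).trans ?_
  rw [← mul_sum]
  refine mul_le_mul_of_nonneg_left ?_ (by positivity)
  have h4 : ∑ v ∈ K, ∑ x ∈ rb nb L v, D x =
      ∑ x ∈ K.biUnion (rb nb L), ∑ v ∈ K.filter (fun v => x ∈ rb nb L v), D x := by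
    refine sum_comm' fun v x => ?_
    simp only [mem_filter, mem_biUnion]
    exact ⟨fun h => ⟨h, v, h⟩, fun h => h.1⟩
  rw [h4]
  refine le_trans ?_ (mul_le_mul_of_nonneg_left (hD ▸ h) (abs_nonneg β))
  rw [mul_sum]
  refine sum_le_sum fun x _ => ?_
  rw [sum_const, nsmul_eq_mul]
  refine mul_le_mul_of_nonneg_right (le_trans ?_ ((hβ x).trans (le_abs_self β))) (D0 x)
  exact_mod_cast card_le_card fun v hv => hG.rb_symm _ _ _ (mem_filter.mp hv).2

lemma Nice.current_lim (hG : Nice G nb) {x y : V} (hxy : y ∈ nb x) (a b : V) :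
    ∃ l : ℝ, ∀ N nb', Adm nb N nb' → ∀ φ : ℕ → V → ℝ,
      (∀ᶠ n in atTop, (∀ v, v ∉ N n → φ n v = 0) ∧
        ∀ v ∈ N n, ∑ z ∈ nb' n v, (φ n v - φ n z) = bd x y v) →
      Tendsto (fun n => φ n a - φ n b) atTop (𝓝 l) := by
  obtain ⟨g, rfl, L, hL⟩ := hG.aut a b
  obtain ⟨C, hC⟩ := hG.energy g hL
  let Sol : (V → ℝ) → Prop := fun θ => (∀ K : Finset V, ∑ v ∈ K, θ v ^ 2 ≤ C) ∧
    ∀ v, ∑ z ∈ nb v, (θ v - θ z) = bd x y v - bd x y (g v)
  have huniq : ∀ θ θ', Sol θ → Sol θ' → θ a = θ' a := by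
    intro θ θ' h h'
    refine sub_eq_zero.mp (hG.liouville (h := fun v => θ v - θ' v) (C := 4 * C) (fun K => ?_)
      (fun v => ?_) a)
    · have h3 : ∑ v ∈ K, (θ v - θ' v) ^ 2 ≤ ∑ v ∈ K, (2 * θ v ^ 2 + 2 * θ' v ^ 2) :=
        sum_le_sum fun v _ => by nlinarith [sq_nonneg (θ v + θ' v)]
      rw [sum_add_distrib, ← mul_sum, ← mul_sum] at h3
      linarith [h.1 K, h'.1 K]
    · have h1 := h.2 v
      have h2 := h'.2 v
      simp only [sum_sub_distrib] at h1 h2 ⊢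
      linarith
  classical
  refine ⟨if h : ∃ θ, Sol θ then h.choose a else 0, fun N nb' hA φ hφ => ?_⟩
  have h1 : ∀ K : Finset V, ∀ᶠ n in atTop, ∑ v ∈ K, (φ n v - φ n (g v)) ^ 2 ≤ C := by
    intro K
    filter_upwards [hφ, hA.2.2.2 (K.biUnion (rb nb L)), hA.2.2.2 {x, y}] with n ⟨h0, h1⟩ h2 h3
    have hx := h3 x (by simp)
    have hy := h3 y (by simp)
    refine hC _ _ (le_trans ?_ (energy_le (hA.2.1 n) hx.1 hy.1 (hx.2 ▸ hxy) h0 h1))
    rw [sum_congr rfl fun v hv => by rw [← (h2 v hv).2]]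
    exact sum_le_sum_of_subset_of_nonneg (fun v hv => (h2 v hv).1)
      fun _ _ _ => sum_nonneg fun _ _ => sq_nonneg _
  have h2 : ∀ v, ∀ᶠ n in atTop, ∑ z ∈ nb v, ((φ n v - φ n (g v)) - (φ n z - φ n (g z))) =
      bd x y v - bd x y (g v) := by
    intro v
    filter_upwards [hφ, hA.2.2.2 {v, g v}] with n ⟨_, h1⟩ h3
    have hx := h3 v (by simp)
    have hy := h3 (g v) (by simp)
    rw [← h1 v hx.1, ← h1 _ hy.1, hx.2, hy.2, hG.sum_aut g v, ← sum_sub_distrib]
    exact sum_congr rfl fun _ _ => by ring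
  rw [tendsto_iff_ultrafilter]
  intro U hU
  have h3 : ∀ v, ∃ l, Tendsto (fun n => φ n v - φ n (g v)) U (𝓝 l) := by
    intro v
    obtain ⟨l, -, hl⟩ := (isCompact_Icc (a := -√C) (b := √C)).ultrafilter_le_nhds
      (U.map fun n => φ n v - φ n (g v)) (by
        rw [Ultrafilter.coe_map, le_principal_iff, Filter.mem_map]
        filter_upwards [(h1 {v}).filter_mono hU] with n hn
        rw [sum_singleton] at hn
        exact abs_le.mp (Real.abs_le_sqrt hn))
    exact ⟨l, hl⟩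
  choose θ hθ using h3
  have hS : Sol θ := by
    refine ⟨fun K => le_of_tendsto (tendsto_finsetSum K fun v _ => (hθ v).pow 2)
      ((h1 K).filter_mono hU), fun v => ?_⟩
    refine tendsto_nhds_unique (tendsto_finsetSum (nb v) fun z _ => (hθ v).sub (hθ z)) ?_
    exact tendsto_const_nhds.congr' (((h2 v).filter_mono hU).mono fun n hn => hn.symm)
  have hex : ∃ θ, Sol θ := ⟨θ, hS⟩
  rw [dif_pos hex, huniq _ _ hex.choose_spec hS]
  exact hθ a

lemma Nice.avoid_lim (hG : Nice G nb) (B : Finset (Sym2 V)) : ∃ l : ℝ, ∀ N nb', Adm nb N nb' →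
    Tendsto (fun n => nf (For (N n) (nb' n)) (fun f => gr f ∈ cyl ∅ B) / (For (N n) (nb' n)).card)
      atTop (𝓝 l) := by
  classical
  let κ := {e // e ∈ B.filter (· ∈ G.edgeSet)}
  have hex : ∀ e : κ, ∃ x y, y ∈ nb x ∧ e.1 = s(x, y) := by
    rintro ⟨e, he⟩
    induction e using Sym2.ind with
    | h a b => exact ⟨a, b, (hG.adj _ _).mp (mem_filter.mp he).2, rfl⟩
  choose x y hxy hxe using hex
  choose l hl using fun e g : κ => hG.current_lim (hxy g) (x e) (y e)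
  refine ⟨(1 - Matrix.of l).det, fun N nb' hA => ?_⟩
  let K : Finset V := univ.image x ∪ univ.image y
  have hx : ∀ e, x e ∈ K := fun e => by simp [K]
  have hy : ∀ e, y e ∈ K := fun e => by simp [K]
  have hT : ∀ n, ∃ φ : κ → V → ℝ, (∀ v ∈ K, v ∈ N n ∧ nb' n v = nb v) →
      (∀ g v, v ∉ N n → φ g v = 0) ∧
      (∀ g, ∀ v ∈ N n, ∑ z ∈ nb' n v, (φ g v - φ g z) = bd (x g) (y g) v) ∧
      nf (For (N n) (nb' n)) (fun f => ∀ v ∈ N n, ∀ e, s(v, f v) ≠ s(x e, y e)) =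
        (For (N n) (nb' n)).card * (1 - Matrix.of fun e g => φ g (x e) - φ g (y e)).det := by
    intro n
    by_cases h : ∀ v ∈ K, v ∈ N n ∧ nb' n v = nb v
    · obtain ⟨φ, hφ⟩ := transfer (hA.1 n) x y (fun e => (h _ (hx e)).1)
        (fun e => (h _ (hy e)).1) (fun e => ((hG.adj _ _).mpr (hxy e)).ne)
        (fun e => (h _ (hx e)).2 ▸ hxy e) (fun e => (h _ (hy e)).2 ▸ hG.symm _ _ (hxy e))
        (fun e g h => Subtype.ext ((hxe e).trans (h.trans (hxe g).symm)))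
      exact ⟨φ, fun _ => hφ⟩
    · exact ⟨fun _ _ => 0, fun h' => absurd h' h⟩
  choose φ hφ using hT
  have hlim : Tendsto (fun n => (1 - Matrix.of fun e g =>
      φ n g (x e) - φ n g (y e)).det) atTop (𝓝 (1 - Matrix.of l).det) := by
    refine ((continuous_const.sub continuous_id).matrix_det.tendsto (Matrix.of l)).comp
      (f := fun n => Matrix.of fun e g => φ n g (x e) - φ n g (y e)) ?_
    refine tendsto_pi_nhds.mpr fun e => tendsto_pi_nhds.mpr fun g => hl e g N nb' hA _ ?_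
    filter_upwards [hA.2.2.2 K] with n hn
    exact ⟨(hφ n hn).1 g, (hφ n hn).2.1 g⟩
  refine hlim.congr' ?_
  filter_upwards [hA.2.2.2 K] with n hn
  have hZ : ((For (N n) (nb' n)).card : ℝ) ≠ 0 := by exact_mod_cast (hA.1 n).card_pos.ne'
  rw [eq_div_iff hZ, mul_comm, ← (hφ n hn).2.2]
  refine nf_congr fun f hf => ?_
  simp only [cyl, notMem_empty, false_imp_iff, implies_true, true_and, Set.mem_ofPred_eq,
    mem_gr hf, ← hxe]
  constructor
  · rintro h e he ⟨v, hv, rfl⟩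
    exact h v hv ⟨_, mem_filter.mpr ⟨he,
      (hG.adj _ _).mpr (hA.2.2.1 n v ((mem_For.mp hf).2.1 v hv))⟩⟩ rfl
  · intro h v hv e he
    exact h e.1 (mem_filter.mp e.2).1 ⟨v, hv, he⟩

lemma Nice.cyl_lim (hG : Nice G nb) (A B : Finset (Sym2 V)) : ∃ l : ℝ, ∀ N nb', Adm nb N nb' →
    Tendsto (fun n => nf (For (N n) (nb' n)) (fun f => gr f ∈ cyl A B) / (For (N n) (nb' n)).card)
      atTop (𝓝 l) := by
  classical
  induction A using Finset.induction_on generalizing B with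
  | empty => exact hG.avoid_lim B
  | insert e A he ih =>
    obtain ⟨l1, h1⟩ := ih B
    obtain ⟨l2, h2⟩ := ih (insert e B)
    refine ⟨l1 - l2, fun N nb hA => ((h1 N nb hA).sub (h2 N nb hA)).congr fun n => ?_⟩
    rw [← sub_div, ← nf_add_not _ (fun f => gr f ∈ cyl A B) fun f => e ∈ (gr f).edgeSet]
    congr 1
    rw [nf_congr (E := fun f => gr f ∈ cyl A (insert e B))
      (E' := fun f => gr f ∈ cyl A B ∧ e ∉ (gr f).edgeSet), add_sub_cancel_right]
    · refine nf_congr fun f _ => ?_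
      simp only [cyl, Set.mem_ofPred_eq, forall_mem_insert]
      tauto
    · intro f _
      simp only [cyl, Set.mem_ofPred_eq, forall_mem_insert]
      tauto

omit [DecidableEq V] in
lemma meas_of_closed [Countable V] {E : Set (SimpleGraph V)} (hE : IsClosed (toG ⁻¹' E)) :
    MeasurableSet E := by
  have := countable_sym2 (V := V)
  have h := measurable_ofG hE.measurableSet
  rwa [← Set.preimage_comp, show toG ∘ ofG = id from funext toG_ofG] at h

theorem Nice.exists_usf (hG : Nice G nb) (o : V) {E : Set (SimpleGraph V)}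
    (hE : IsClosed (toG ⁻¹' E)) {c : ℝ} (hc : 0 < c) (h : ∀ᶠ n in atTop,
      c ≤ nf (For (rb nb n o) nb) (fun f => gr f ∈ E) / (For (rb nb n o) nb).card) :
    ∃ μ, IsUSF G μ ∧ 0 < μ E := by
  have := hG.cnt
  have := countable_sym2 (V := V)
  choose ν hν using fun n => exists_unif (hG.wired_ne (rb nb n o)) fun f => ofG (gr f)
  obtain ⟨m, -, hm⟩ := isCompact_univ.ultrafilter_le_nhds ((hyperfilter ℕ).map ν) (by simp)
  have hm' : Tendsto ν (hyperfilter ℕ) (𝓝 m) := hm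
  have hν' : ∀ n (E : Set (SimpleGraph V)), MeasurableSet E →
      (ν n : Measure _).real (toG ⁻¹' E) =
        nf (For (rb nb n o) nb) (fun f => gr f ∈ E) / (For (rb nb n o) nb).card := by
    intro n E hE
    rw [hν n _ (measurable_toG hE)]
    simp only [Set.mem_preimage, toG_ofG]
  refine ⟨(m : Measure _).map toG, ⟨Measure.isProbabilityMeasure_map measurable_toG.aemeasurable,
    ⟨_, hG.exh o⟩, fun Λ hΛ A B => ?_⟩, ?_⟩
  · obtain ⟨l, hl⟩ := hG.cyl_lim A B
    obtain ⟨ρ, hρ, hA⟩ := hG.adm_free hΛ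
    have h1 := NNReal.tendsto_coe.mpr
      (ProbabilityMeasure.tendsto_measure_of_isClopen_of_tendsto hm' (clopen_cyl A B))
    have h2 := (hl _ _ (hG.adm_wired o)).mono_left Nat.hyperfilter_le_atTop
    simp only [← hν' _ _ (measurableSet_cyl A B)] at h2
    have h3 : l = ((m : Measure _).map toG).real (cyl A B) := by
      rw [map_measureReal_apply measurable_toG (measurableSet_cyl A B)]
      exact tendsto_nhds_unique h2 h1
    simp only [ustProb_eq _ (hρ _)]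
    exact h3 ▸ hl _ _ hA
  · rw [Measure.map_apply measurable_toG (meas_of_closed hE)]
    refine lt_of_lt_of_le (ENNReal.ofReal_pos.mpr hc) (le_trans ?_
      (ProbabilityMeasure.limsup_measure_closed_le_of_tendsto hm' hE))
    refine le_limsup_of_frequently_le' (Eventually.frequently ?_)
    filter_upwards [h.filter_mono Nat.hyperfilter_le_atTop] with n hn
    rw [← hν' n _ (meas_of_closed hE)] at hn
    exact ENNReal.ofReal_le_of_le_toReal hn

end Pool.Agent.P.MP_a28080_pr.R
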