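import Pool.Agent.P.MP_a28080_pr.R.Geo

/-! The plan on the lamp graph. -/

namespace Pool.Agent.P.MP_a28080_pr.R

open Finset Filter MeasureTheory

lemma Nice.adj_rb {V : Type} [DecidableEq V] {G : SimpleGraph V} {nb : V → Finset V}
    (h : Nice G nb) {n : ℕ} (hn : 1 ≤ n) {x y : V} (hx : G.Adj x y) : y ∈ rb nb n x :=
  h.nb_sub hn ((h.adj _ _).mp hx)

variable (r K : ℕ)

/-- the ambient finite set -/
noncomputable def amb : Finset (VV 20 (4 * r + 9)) :=
  (tube 0 (4 * K + 34 * r + 74) (16 * r + 36) ∪ tube 1 (4 * K + 34 * r + 74) (16 * r + 36)) ×ˢ univ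

open Classical in
/-- blobs -/
noncomputable def blob (i : Bool × Bool) : Finset (VV 20 (4 * r + 9)) :=
  (amb r K).filter fun p => PP r K i p.1 ∧ p.2 (fun _ => 1) = i.1

open Classical in
/-- arms -/
noncomputable def armA (i : Bool × Bool) : Finset (VV 20 (4 * r + 9)) :=
  (amb r K).filter fun p => PA r K i p.1 ∧ p.2 = fun _ => i.1

variable {r K}

lemma mem_blob {i : Bool × Bool} {p : VV 20 (4 * r + 9)} :
    p ∈ blob r K i ↔ PP r K i p.1 ∧ p.2 (fun _ => 1) = i.1 := by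
  classical
  rw [blob, mem_filter, amb, mem_product]
  exact ⟨fun h => h.2, fun h => ⟨⟨foot_tube (Or.inl h.1), mem_univ _⟩, h⟩⟩

lemma mem_armA {i : Bool × Bool} {p : VV 20 (4 * r + 9)} :
    p ∈ armA r K i ↔ PA r K i p.1 ∧ p.2 = fun _ => i.1 := by
  classical
  rw [armA, mem_filter, amb, mem_product]
  exact ⟨fun h => h.2, fun h => ⟨⟨foot_tube (Or.inr h.1), mem_univ _⟩, h⟩⟩

lemma blob_sub (i : Bool × Bool) : blob r K i ⊆ amb r K := by
  classical
  exact filter_subset _ _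

lemma armA_sub (i : Bool × Bool) : armA r K i ⊆ amb r K := by
  classical
  exact filter_subset _ _

lemma mem_terr {i : Bool × Bool} {p : VV 20 (4 * r + 9)} (h : p ∈ blob r K i ∪ armA r K i) :
    (PP r K i p.1 ∨ PA r K i p.1) ∧ p.2 (fun _ => 1) = i.1 := by
  rcases mem_union.mp h with h | h
  · exact ⟨Or.inl (mem_blob.mp h).1, (mem_blob.mp h).2⟩
  · exact ⟨Or.inr (mem_armA.mp h).1, congrFun (mem_armA.mp h).2 _⟩

lemma blob_conn (i : Bool × Bool) :
    ((lampG 20 (4 * r + 9)).induce (blob r K i : Set (VV 20 (4 * r + 9)))).Connected := by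
  have e : (blob r K i : Set (VV 20 (4 * r + 9))) = {q | q.1 ∈ {v | PP r K i v} ∧
      ∀ a, ¬ a ≠ (fun _ => 1) → q.2 a = (fun _ => i.1) a} := by
    ext q
    simp [mem_blob]
  rw [e]
  refine conn_of_res (o := (gaP r K i, fun _ => i.1)) ⟨ga_PP i, fun _ _ => rfl⟩ fun v hv => ?_
  exact cyl_reach (P := {v | PP r K i v}) (fun v hv => reach_PP i hv)
    (fun a _ => edge_PP i a) _ hv.1 hv.2

lemma armA_conn (i : Bool × Bool) :
    ((lampG 20 (4 * r + 9)).induce (armA r K i : Set (VV 20 (4 * r + 9)))).Connected := by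
  refine conn_of_res (o := (gaP r K i, fun _ => i.1)) (mem_coe.mpr (mem_armA.mpr ⟨ga_PA i, rfl⟩))
    fun v hv => ?_
  obtain ⟨h1, h2⟩ := mem_armA.mp (mem_coe.mp hv)
  obtain ⟨v, σ⟩ := v
  obtain rfl : σ = fun _ => i.1 := h2
  exact lift_reach (P := {v | PA r K i v})
    (fun v hv => mem_coe.mpr (mem_armA.mpr ⟨hv, rfl⟩)) (reach_PA i h1)

lemma terr_disj (i j : Bool × Bool) (v : VV 20 (4 * r + 9)) (h : v ∈ blob r K i ∪ armA r K i)
    (h' : v ∈ blob r K j ∪ armA r K j) : i = j := by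
  obtain ⟨h1, h2⟩ := mem_terr h
  obtain ⟨h3, h4⟩ := mem_terr h'
  obtain ⟨s, b⟩ := i
  obtain ⟨t, c⟩ := j
  obtain rfl : s = t := h2.symm.trans h4
  cases b <;> cases c
  · rfl
  · exact (foot_disj h3 h1).elim
  · exact (foot_disj h1 h3).elim
  · rfl

lemma ell_nb {d : ℕ} (t : ℤ) : (ell (t + 1) : BCC d) ∈ nbL (ell t) := mem_nbL.mpr fun j => by
  simp [ell_val]

open Classical in
/-- one lamp lit -/
noncomputable def tg (r : ℕ) : Lab 20 (4 * r + 9) → Bool := fun a => decide (a = fun _ => 1)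

lemma tg_one : tg r (fun _ => 1) = true := by simp [tg]

lemma tg_ne {a : Lab 20 (4 * r + 9)} (h : a ≠ fun _ => 1) : false = tg r a := by simp [tg, h]

lemma toggle_adj {t : ℤ} (h : ((t + (t + 1) : ℤ) : ZMod (4 * r + 9)) = 1) :
    (lampG 20 (4 * r + 9)).Adj (ell t, fun _ => false)
      (ell (t + 1), tg r) := by
  refine ⟨ell_nb t, fun a ha => tg_ne fun e => ha ?_⟩
  rw [e]
  funext j
  exact h.symm

attribute [local irreducible] nbA

lemma exists_plan (hr : 1 ≤ r) (K : ℕ) :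
    ∃ P : Plan (nbA : VV 20 (4 * r + 9) → _) (rb nbA r) fun p q => ¬ near K p.1 q.1,
      ∀ i, P.T i ⊆ amb r K := by
  have hN : Nice (lampG 20 (4 * r + 9)) nbA := lamp_nice (μ := 2 * r + 4) (by omega)
  have hadj : ∀ {p q}, (lampG 20 (4 * r + 9)).Adj p q → q ∈ rb nbA r p :=
    fun h => hN.adj_rb hr h
  obtain ⟨f, h1, h2, h3⟩ := parent_glue (G := lampG 20 (4 * r + 9)) (B := blob r K)
    (A := armA r K) (g := fun i => (gaP r K i, fun _ => i.1))
    (a := fun i => (alP r K i, fun _ => i.1)) (fun i => mem_blob.mpr ⟨ga_PP i, rfl⟩)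
    (fun i => mem_armA.mpr ⟨ga_PA i, rfl⟩) (fun i => mem_armA.mpr ⟨al_PA i, rfl⟩)
    (fun i v hv hv' => Prod.ext (PP_PA (mem_blob.mp hv).1 (mem_armA.mp hv').1) (mem_armA.mp hv').2)
    blob_conn armA_conn terr_disj
  refine ⟨⟨fun i => blob r K i ∪ armA r K i, blob r K,
    fun s => (blob r K (s, true)).filter fun p => hz s (p.1.1 0) ≤ K + 16 * r + 36,
    fun i => (alP r K i, fun _ => i.1), fun i => (gaP r K i, fun _ => i.1), f,
    fun i => subset_union_left, terr_disj,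
    fun i => mem_union_right _ (mem_armA.mpr ⟨al_PA i, rfl⟩),
    fun i => mem_blob.mpr ⟨ga_PP i, rfl⟩,
    fun i v hv hne => ⟨(h1 i v hv hne).1, (hN.adj _ _).mp (h1 i v hv hne).2⟩, h2, h3,
    fun i j p hp hn => ?_, fun s => filter_subset _ _, fun s a ha u hu => ?_,
    fun s p hp hc b q hq => ?_, ?_, fun s => ?_, ?_⟩,
    fun i => union_subset (blob_sub i) (armA_sub i)⟩
  · obtain ⟨k1, k2⟩ := foot_anch (mem_terr hp).1 (not_not.mp hn)
    exact ⟨k1, fun h => k2 (mem_blob.mp h).1⟩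
  · obtain ⟨k1, k2⟩ := mem_filter.mp ha
    obtain ⟨k3, k4⟩ := mem_blob.mp k1
    obtain ⟨w, hw⟩ := (mem_rb_walk hN.adj).mp hu
    by_cases e : u.2 (fun _ => 1) = s
    · have k5 := near_of_walk (w.map prj)
      rw [SimpleGraph.Walk.length_map] at k5
      by_cases e2 : PB r K s u.1
      · exact Or.inl (mem_blob.mpr ⟨e2, e⟩)
      · exact Or.inr (Or.inr (mem_blob.mpr ⟨⟨foot_core k3 k2 (k5.mono hw), e2⟩, e⟩))
    · obtain ⟨x, y, l1, l2, l3, l4⟩ := walk_cross (a0 := fun _ => 1) w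
        fun e' => e (e'.symm.trans k4)
      exact Or.inr (Or.inl (mem_blob.mpr ⟨foot_side k3 l1 l2 (l3.mono hw) (l4.mono hw),
        Bool.eq_not.mpr e⟩))
  · refine foot_cross ?_ (mem_terr hq).1
    rcases mem_union.mp hp with h | h
    · exact not_le.mp fun h' => hc (mem_filter.mpr ⟨h, h'⟩)
    · have := (mem_armA.mp h).1.1
      omega
  · refine ⟨_, mem_blob.mpr ⟨Or.inl fun j => ?_, rfl⟩, _,
      mem_blob.mpr ⟨Or.inl fun j => ?_, tg_one (r := r)⟩,
      hadj (toggle_adj (t := 0) (by simp))⟩ <;> rw [ell_val] <;> omega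
  · refine ⟨(ell (2 * r + 6), fun _ => s), mem_blob.mpr ⟨Or.inl fun j => ?_, rfl⟩,
      (ell (2 * r + 6 + 1), fun _ => s), mem_blob.mpr ⟨ell_PS s (by omega) (by omega), rfl⟩,
      hadj ⟨ell_nb _, fun _ _ => rfl⟩⟩
    rw [ell_val]; omega
  · refine ⟨_, mem_blob.mpr ⟨ell_PS false (by omega) (by omega), rfl⟩, _,
      mem_blob.mpr ⟨ell_PS true (by omega) (by omega), tg_one (r := r)⟩,
      hadj (toggle_adj (t := (4 * r + 9 : ℕ)) ?_)⟩
    rw [Int.cast_add, Int.cast_add, Int.cast_natCast, ZMod.natCast_self]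
    simp

lemma card_amb (r : ℕ) : ∃ A : ℝ, ∀ K : ℕ, ((amb r K).card : ℝ) ≤ A * (K + 1) := by
  obtain ⟨M, hM⟩ : ∃ M, M = Fintype.card (Lab 20 (4 * r + 9) → Bool) := ⟨_, rfl⟩
  obtain ⟨E, hE⟩ : ∃ E, E = (2 * (16 * r + 36) + 1) ^ 20 := ⟨_, rfl⟩
  refine ⟨(2 * (68 * r + 149) * E * M : ℕ), fun K => ?_⟩
  have h1 := card_tube (0 : Fin 20) (4 * K + 34 * r + 74) (16 * r + 36)
  have h2 := card_tube (1 : Fin 20) (4 * K + 34 * r + 74) (16 * r + 36)
  have h3 : 2 * (4 * K + 34 * r + 74) + 1 ≤ (68 * r + 149) * (K + 1) := by nlinarith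
  rw [← hE] at h1 h2
  have h4 := (card_union_le _ _).trans (add_le_add (h1.trans (Nat.mul_le_mul_right E h3))
    (h2.trans (Nat.mul_le_mul_right E h3)))
  have h5 : (amb r K).card ≤ 2 * (68 * r + 149) * E * M * (K + 1) := by
    rw [amb, card_product, card_univ, ← hM]
    exact (Nat.mul_le_mul_right M h4).trans (le_of_eq (by ring))
  exact_mod_cast h5

theorem lamp_usf (hr : 1 ≤ r) : ∃ μ, IsUSF (lampG 20 (4 * r + 9)) μ ∧ ∃ B, MeasurableSet B ∧
    0 < μ B ∧ ∀ F ∈ B, Sat (compGraph (lampG 20 (4 * r + 9)) F r) psi := by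
  have hm : 4 * r + 9 = 2 * (2 * r + 4) + 1 := by omega
  have hN : Nice (lampG 20 (4 * r + 9)) nbA := lamp_nice hm
  obtain ⟨A, hA⟩ := card_amb r
  obtain ⟨K, hK⟩ := bad_lamp (d := 20) rfl hm r A
  obtain ⟨P, hP⟩ := exists_plan hr K
  obtain ⟨c, hc, h⟩ := plan_lower hN hr P (0, fun _ => false)
    (hK P fun i => (Nat.cast_le.mpr (card_le_card (hP i))).trans (hA K))
  obtain ⟨μ, h1, h2⟩ := hN.exists_usf _ P.closed_TB hc h
  have := hN.cnt
  exact ⟨μ, h1, P.TB, meas_of_closed P.closed_TB, h2, fun F hF => TB_sat hN hF⟩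

end Pool.Agent.P.MP_a28080_pr.R
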