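import Pool.Agent.P.MP_a28080_pr.R.Chain

/-! The surgery for an abstract plan of four territories. -/

namespace Pool.Agent.P.MP_a28080_pr.R

open Finset Filter

variable {V : Type}

/-- four territories with blobs, cores, gates and anchors -/
structure Plan (nb sb : V → Finset V) (far : V → V → Prop) where
  T : Bool × Bool → Finset V
  B : Bool × Bool → Finset V
  C : Bool → Finset V
  al : Bool × Bool → V
  ga : Bool × Bool → V
  nx : V → V
  BT : ∀ i, B i ⊆ T i
  disj : ∀ i j v, v ∈ T i → v ∈ T j → i = j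
  alT : ∀ i, al i ∈ T i
  gaB : ∀ i, ga i ∈ B i
  step : ∀ i, ∀ v ∈ T i, v ≠ al i → nx v ∈ T i ∧ nx v ∈ nb v
  exit : ∀ i, ∀ v ∈ T i, ∃ n, nx^[n] v = al i
  gate : ∀ i, ∀ v ∈ B i, ∃ n, nx^[n] v = ga i ∧ ∀ k < n, nx^[k] v ∈ B i
  anch : ∀ i j p, p ∈ T j → ¬ far (al i) p → i = j ∧ p ∉ B i
  CB : ∀ s, C s ⊆ B (s, true)
  core : ∀ s, ∀ a ∈ C s, ∀ u ∈ sb a, u ∈ B (s, true) ∨ u ∈ B (!s, true) ∨ u ∈ B (s, false)
  cross : ∀ s, ∀ p ∈ T (s, true), p ∉ C s → ∀ b, ∀ q ∈ T (!s, b), far p q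
  axy : ∃ p ∈ B (false, true), ∃ q ∈ B (true, true), q ∈ sb p
  axz : ∀ s, ∃ p ∈ B (s, true), ∃ q ∈ B (s, false), q ∈ sb p
  azz : ∃ p ∈ B (false, false), ∃ q ∈ B (true, false), q ∈ sb p

variable {nb sb : V → Finset V} {far : V → V → Prop} (P : Plan nb sb far)

/-- redirected vertices -/
def Plan.Red (f : V → V) (v : V) : Prop := ∃ i, v ∈ P.T i ∧ ¬ Anc f (P.al i) v

open Classical in
/-- the modified parent map -/
noncomputable def Plan.surg (f : V → V) : V → V := fun v => if P.Red f v then P.nx v else f v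

/-- no chains between distant points of the territories -/
def Plan.Good (f : V → V) : Prop :=
  ∀ i j p q, p ∈ P.T i → q ∈ P.T j → far p q → ¬ Chain sb p q f

/-- the target event -/
def Plan.TB : Set (SimpleGraph V) :=
  {F | (∀ i, ∀ v ∈ P.B i, s(v, P.nx v) ∈ F.edgeSet) ∧
    (∀ i j, i ≠ j → ¬ F.Reachable (P.ga i) (P.ga j)) ∧
    ∀ a u v b, u ∈ sb a → v ∈ sb b → (∀ s, u ∉ P.B (s, true)) → (∀ s, v ∉ P.B (s, true)) →
      ¬ (F.Reachable (P.ga (false, true)) a ∧ F.Reachable u v ∧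
        F.Reachable (P.ga (true, true)) b)}

lemma Plan.closed_TB : IsClosed (toG ⁻¹' P.TB) := by
  refine IsClosed.and ?_ (IsClosed.and ?_ ?_) <;> simp only [Set.ofPred_forall]
  · exact isClosed_iInter fun _ => isClosed_iInter fun _ => isClosed_iInter fun _ =>
      (clopen_edge _).isClosed
  · exact isClosed_iInter fun _ => isClosed_iInter fun _ => isClosed_iInter fun _ =>
      (open_reach _ _).isClosed_compl
  · refine isClosed_iInter fun a => isClosed_iInter fun u => isClosed_iInter fun v =>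
      isClosed_iInter fun b => isClosed_iInter fun _ => isClosed_iInter fun _ =>
      isClosed_iInter fun _ => isClosed_iInter fun _ => ?_
    exact ((open_reach _ _).and ((open_reach _ _).and (open_reach _ _))).isClosed_compl

variable {P} {f : V → V}

lemma TB_gate {F : SimpleGraph V} (h : F ∈ P.TB) {i : Bool × Bool} {v : V} (hv : v ∈ P.B i) :
    F.Reachable v (P.ga i) := by
  obtain ⟨n, hn, hk⟩ := P.gate i v hv
  induction n generalizing v with
  | zero => exact hn ▸ .refl _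
  | succ n ih =>
    have h1 : F.Adj v (P.nx v) := h.1 i v hv
    by_cases h0 : n = 0
    · subst h0; exact hn ▸ h1.reachable
    · exact h1.reachable.trans (ih (hk 1 (by omega)) hn fun k hk' => hk (k + 1) (by omega))

lemma surg_not {v : V} (h : ¬ P.Red f v) : P.surg f v = f v := if_neg h

lemma surg_red {v : V} (h : P.Red f v) : P.surg f v = P.nx v := if_pos h

lemma Red.step {v : V} (h : P.Red f v) {i : Bool × Bool} (hv : v ∈ P.T i) :
    P.nx v ∈ P.T i ∧ P.nx v ∈ nb v := by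
  obtain ⟨j, hj, hn⟩ := h
  obtain rfl := P.disj _ _ _ hj hv
  exact P.step _ v hv fun e => hn ⟨0, e.symm⟩

namespace Good

lemma anchor (hg : P.Good f) {i j : Bool × Bool} {p : V} (hp : p ∈ P.T j)
    (m : Meet f (P.al i) p) : i = j ∧ p ∉ P.B i :=
  P.anch i j p hp fun hn => hg _ _ _ _ (P.alT i) hp hn (Or.inl m)

lemma red (hg : P.Good f) {i : Bool × Bool} {v : V} (h : v ∈ P.B i) : P.Red f v :=
  ⟨i, P.BT i h, fun ⟨n, hn⟩ => (anchor hg (P.BT i h) ⟨n, 0, hn⟩).2 h⟩

lemma orbit (hg : P.Good f) (i : Bool × Bool) (n : ℕ) :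
    (P.surg f)^[n] (P.al i) = f^[n] (P.al i) := by
  refine iter_agree (S := fun y => ¬ P.Red f y) (fun y hy => surg_not hy) _ n fun m _ => ?_
  rintro ⟨j, hj, hn⟩
  obtain ⟨rfl, -⟩ := anchor hg hj ⟨m, 0, rfl⟩
  exact hn ⟨m, rfl⟩

lemma meet_anchor (hg : P.Good f) {i : Bool × Bool} {v : V} (h : v ∈ P.T i) :
    Meet (P.surg f) v (P.al i) := by
  obtain ⟨n, hn⟩ := P.exit i v h
  induction n generalizing v with
  | zero => exact hn ▸ Meet.refl _ _
  | succ n ih =>
    by_cases hr : P.Red f v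
    · refine (meet_step _ _).trans ?_
      rw [surg_red hr]
      exact ih (Red.step hr h).1 hn
    · obtain ⟨m, hm⟩ : Anc f (P.al i) v := by_contra fun hn' => hr ⟨i, h, hn'⟩
      exact ⟨0, m, by rw [orbit hg, hm]; rfl⟩

lemma terr_eq (hg : P.Good f) {i j : Bool × Bool} {p q : V} (hp : p ∈ P.T i) (hq : q ∈ P.T j)
    (m : Meet (P.surg f) p q) : i = j := by
  obtain ⟨a, b, e⟩ := (meet_anchor hg hp).symm.trans (m.trans (meet_anchor hg hq))
  rw [orbit hg, orbit hg] at e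
  exact (anchor hg (P.alT j) ⟨a, b, e⟩).1

end Good

lemma first_hit (P : Plan nb sb far) (f : V → V) (v : V) :
    (∀ n, (P.surg f)^[n] v = f^[n] v) ∨ ∃ n i, f^[n] v ∈ P.T i ∧
      (P.surg f)^[n] v = f^[n] v ∧ ∀ m < n, ¬ P.Red f (f^[m] v) := by
  classical
  by_cases h : ∃ n, P.Red f (f^[n] v)
  · obtain ⟨i, h1, -⟩ := Nat.find_spec h
    exact Or.inr ⟨_, i, h1, iter_agree (S := fun y => ¬ P.Red f y) (fun y hy => surg_not hy) _ _
      fun m hm => Nat.find_min h hm, fun m hm => Nat.find_min h hm⟩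
  · exact Or.inl fun n => iter_agree (S := fun y => ¬ P.Red f y) (fun y hy => surg_not hy) _ _
      fun m _ hm => h ⟨m, hm⟩

namespace Good

lemma meet_arm (hg : P.Good f) {i : Bool × Bool} {v : V} (m : Meet (P.surg f) v (P.al i)) :
    ∃ p ∈ P.T i, Meet f p v := by
  rcases first_hit P f v with h1 | ⟨n, j, h1, h3, -⟩
  · obtain ⟨a, b, e⟩ := m
    rw [h1, orbit hg] at e
    exact ⟨_, P.alT i, b, a, e.symm⟩
  · obtain rfl := terr_eq hg h1 (P.alT i) ((h3 ▸ meet_iter _ v n).symm.trans m)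
    exact ⟨_, h1, 0, n, rfl⟩

lemma meet_cases (hg : P.Good f) {u v : V} (m : Meet (P.surg f) u v) :
    Meet f u v ∨ ∃ i, Meet (P.surg f) u (P.al i) := by
  rcases first_hit P f u with h1 | ⟨n, i, h1, h3, -⟩
  · rcases first_hit P f v with h2 | ⟨n, i, h1, h3, -⟩
    · obtain ⟨a, b, e⟩ := m
      rw [h1, h2] at e
      exact Or.inl ⟨a, b, e⟩
    · exact Or.inr ⟨i, m.trans ((h3 ▸ meet_iter _ v n).trans (meet_anchor hg h1))⟩
  · exact Or.inr ⟨i, (h3 ▸ meet_iter _ u n).trans (meet_anchor hg h1)⟩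

lemma mem_For [DecidableEq V] (hg : P.Good f) {N : Finset V} (hf : f ∈ For N nb)
    (hN : ∀ i, P.T i ⊆ N) : P.surg f ∈ For N nb := by
  obtain ⟨h1, h2, h3⟩ := MP_a28080_pr.mem_For.mp hf
  have k1 : ∀ v, v ∉ N → P.surg f v = v := by
    intro v hv
    rw [surg_not, h1 v hv]
    rintro ⟨i, h, -⟩
    exact hv (hN i h)
  refine MP_a28080_pr.mem_For.mpr ⟨k1, fun v hv => ?_, fun v => ?_⟩
  · by_cases hr : P.Red f v
    · obtain ⟨i, h, -⟩ := id hr
      rw [surg_red hr]
      exact (Red.step hr h).2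
    · rw [surg_not hr]; exact h2 v hv
  · rcases first_hit P f v with h4 | ⟨n, i, h4, h5, -⟩
    · obtain ⟨n, hn⟩ := h3 v
      exact ⟨n, (h4 n).symm ▸ hn⟩
    · obtain ⟨a, b, e⟩ := (h5 ▸ meet_iter _ v n).trans (meet_anchor hg h4)
      obtain ⟨c, hc⟩ := h3 (P.al i)
      rw [← orbit hg] at hc
      refine ⟨c + a, ?_⟩
      rw [Function.iterate_add_apply, e, ← Function.iterate_add_apply, add_comm,
        Function.iterate_add_apply, iter_fix k1 hc]
      exact hc

variable (hs : ∀ x y, x ∈ sb y → y ∈ sb x) (hns : ∀ x y, x ∈ nb y → y ∈ sb x)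
include hs

lemma cross (hg : P.Good f) {s c : Bool} {v b : V} (m : Meet (P.surg f) v (P.al (!s, c)))
    (hv : v ∈ sb b) {p : V} (h1 : p ∈ P.T (s, true)) (h2 : p ∉ P.C s) (m' : Meet f p b) :
    False := by
  obtain ⟨q, hq, m2⟩ := meet_arm hg m
  exact hg _ _ _ _ h1 hq (P.cross s p h1 h2 c q hq) (Or.inr (Or.inl ⟨b, v, hv, m', m2.symm⟩))

omit hs in
include hns in
lemma half [DecidableEq V] (hg : P.Good f) {N : Finset V} (hf : f ∈ For N nb) {s : Bool}
    {a u : V} (m : Meet (P.surg f) (P.ga (s, true)) a) (hu : u ∈ sb a) :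
    (∃ t, u ∈ P.B (t, true)) ∨ Meet (P.surg f) u (P.al (s, false)) ∨
      ∃ p ∈ P.T (s, true), p ∉ P.C s ∧ Meet f p a := by
  have v0 := P.BT _ (P.gaB (s, true))
  rcases first_hit P f a with h1 | ⟨n, j, h1, h3, h4⟩
  · obtain ⟨x, y, e⟩ := m.symm.trans (meet_anchor hg v0)
    rw [h1, orbit hg] at e
    exact Or.inr (Or.inr ⟨_, P.alT _, fun h => (anchor hg (P.alT _) (Meet.refl _ _)).2
      (P.CB s h), y, x, e.symm⟩)
  obtain rfl := terr_eq hg v0 h1 (m.trans (h3 ▸ meet_iter _ a n))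
  by_cases hK : f^[n] a ∈ P.C s
  swap
  · exact Or.inr (Or.inr ⟨_, h1, hK, 0, n, rfl⟩)
  cases n with
  | zero =>
    rcases P.core s a hK u hu with h | h | h
    · exact Or.inl ⟨_, h⟩
    · exact Or.inl ⟨_, h⟩
    · exact Or.inr (Or.inl (meet_anchor hg (P.BT _ h)))
  | succ n =>
    exfalso
    refine h4 n (Nat.lt_succ_self n) ?_
    rw [Function.iterate_succ_apply'] at hK
    by_cases hN : f^[n] a ∈ N
    · rcases P.core s _ hK _ (hns _ _ ((MP_a28080_pr.mem_For.mp hf).2.1 _ hN)) with h | h | h <;>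
        exact red hg h
    · rw [(MP_a28080_pr.mem_For.mp hf).1 _ hN] at hK
      exact red hg (P.CB s hK)

include hns in
lemma chain [DecidableEq V] (hg : P.Good f) {N : Finset V} (hf : f ∈ For N nb) {a u v b : V}
    (m1 : Meet (P.surg f) (P.ga (false, true)) a) (hu : u ∈ sb a)
    (m2 : Meet (P.surg f) u v) (hv : v ∈ sb b) (m3 : Meet (P.surg f) (P.ga (true, true)) b)
    (n1 : ∀ s, u ∉ P.B (s, true)) (n2 : ∀ s, v ∉ P.B (s, true)) : False := by
  rcases half hns hg hf m1 hu with ⟨t, h⟩ | k2 | ⟨p, k1, k2, k3⟩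
  · exact n1 t h
  · rcases half hns hg hf m3 hv with ⟨t, h⟩ | l2 | ⟨q, l1, l2, l3⟩
    · exact n2 t h
    · cases terr_eq hg (P.alT _) (P.alT _) (k2.symm.trans (m2.trans l2))
    · exact cross hs hg (s := true) (m2.symm.trans k2) hv l1 l2 l3
  · rcases half hns hg hf m3 hv with ⟨t, h⟩ | l2 | ⟨q, l1, l2, l3⟩
    · exact n2 t h
    · exact cross hs hg (s := false) (m2.trans l2) hu k1 k2 k3
    · rcases meet_cases hg m2 with h | ⟨⟨s, c⟩, h2⟩
      · exact hg _ _ _ _ k1 l1 (P.cross false p k1 k2 true q l1)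
          (Or.inr (Or.inr ⟨a, u, hu, b, v, hv, k3, h, l3.symm⟩))
      · cases s
        · exact cross hs hg (s := true) (m2.symm.trans h2) hv l1 l2 l3
        · exact cross hs hg (s := false) h2 hu k1 k2 k3

end Good

variable [DecidableEq V] {G : SimpleGraph V} {r : ℕ}

lemma surg_TB (hG : Nice G nb) (hr : 1 ≤ r) {P : Plan nb (rb nb r) far} (hg : P.Good f)
    {N : Finset V} (hf : f ∈ For N nb) : gr (P.surg f) ∈ P.TB := by
  refine ⟨fun i v hv => ?_, fun i j hij h => hij ?_, ?_⟩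
  · have hr := Good.red hg hv
    rw [SimpleGraph.mem_edgeSet, gr_adj]
    exact ⟨((hG.adj _ _).mpr (Red.step hr (P.BT i hv)).2).ne, Or.inl (surg_red hr)⟩
  · exact Good.terr_eq hg (P.BT _ (P.gaB i)) (P.BT _ (P.gaB j)) (meet_of_reach h)
  · rintro a u v b hu hv n1 n2 ⟨r1, r2, r3⟩
    exact Good.chain (hG.rb_symm r) (fun x y h => hG.nb_sub hr (hG.symm _ _ h)) hg hf
      (meet_of_reach r1) hu (meet_of_reach r2) hv (meet_of_reach r3) n1 n2

lemma TB_sat (hG : Nice G nb) {P : Plan nb (rb nb r) far} {F : SimpleGraph V} (h : F ∈ P.TB) :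
    Sat (compGraph G F r) psi := by
  have E : ∀ i, ∀ v ∈ P.B i, F.connectedComponentMk v = F.connectedComponentMk (P.ga i) :=
    fun i v hv => SimpleGraph.ConnectedComponent.sound (TB_gate h hv)
  have N : ∀ i j, i ≠ j → F.connectedComponentMk (P.ga i) ≠ F.connectedComponentMk (P.ga j) :=
    fun i j hij e => h.2.1 i j hij (SimpleGraph.ConnectedComponent.exact e)
  have A : ∀ i j, i ≠ j → (∃ p ∈ P.B i, ∃ q ∈ P.B j, q ∈ rb nb r p) → (compGraph G F r).Adj
      (F.connectedComponentMk (P.ga i)) (F.connectedComponentMk (P.ga j)) :=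
    fun i j hij ⟨p, hp, q, hq, hd⟩ => ⟨N i j hij, p, q, E i p hp, E j q hq, hG.mem_rb.mp hd⟩
  rw [sat_psi]
  refine ⟨_, _, _, _, A _ _ (by decide) P.axy, A _ _ (by decide) (P.axz false),
    A _ _ (by decide) P.azz, (A _ _ (by decide) (P.axz true)).symm, N _ _ (by decide),
    N _ _ (by decide), ?_⟩
  rintro w ⟨⟨n1, u, a, rfl, ha, hd1⟩, n2, v, b, hv, hb, hd2⟩
  refine h.2.2 a u v b (hG.rb_symm _ _ _ (hG.mem_rb.mpr hd1))
    (hG.rb_symm _ _ _ (hG.mem_rb.mpr hd2)) (fun s hs => ?_) (fun s hs => ?_)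
    ⟨SimpleGraph.ConnectedComponent.exact ha.symm, SimpleGraph.ConnectedComponent.exact hv.symm,
      SimpleGraph.ConnectedComponent.exact hb.symm⟩
  · cases s
    · exact n1 (E _ _ hs)
    · exact n2 (E _ _ hs)
  · cases s
    · exact n1 (hv.symm.trans (E _ _ hs))
    · exact n2 (hv.symm.trans (E _ _ hs))

lemma plan_lower (hG : Nice G nb) (hr : 1 ≤ r) (P : Plan nb (rb nb r) far) (o : V)
    (hK : ∀ N : Finset V, nf (For N nb) (fun f => ¬ P.Good f) ≤ 1 / 2 * (For N nb).card) :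
    ∃ c : ℝ, 0 < c ∧ ∀ᶠ n in atTop,
      c ≤ nf (For (rb nb n o) nb) (fun f => gr f ∈ P.TB) / (For (rb nb n o) nb).card := by
  classical
  obtain ⟨S, hS⟩ : ∃ S : Finset V, ∀ i, P.T i ⊆ S :=
    ⟨univ.biUnion P.T, fun i => subset_biUnion_of_mem _ (mem_univ i)⟩
  obtain ⟨M, hM⟩ : ∃ M, M = (Maps S nb).card := ⟨_, rfl⟩
  refine ⟨1 / (2 * (M + 1)), by positivity, ?_⟩
  filter_upwards [exh_ev (hG.exh o) S] with n hn
  generalize rb nb n o = N at hn
  have hZ : (0 : ℝ) < (For N nb).card := by exact_mod_cast (hG.wired_ne N).card_pos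
  have h1 : ((For N nb).filter P.Good).card ≤
      M * ((For N nb).filter fun f => gr f ∈ P.TB).card := by
    rw [hM]
    refine card_le_mul_card_image_of_maps_to (f := P.surg) (fun f hf => ?_) _ fun g _ => ?_
    · obtain ⟨hf, hg⟩ := mem_filter.mp hf
      exact mem_filter.mpr ⟨Good.mem_For hg hf fun i v h => hn _ (hS i h), surg_TB hG hr hg hf⟩
    · refine card_le_card_of_injOn (fun f v => if v ∈ S then f v else v) (fun f hf => ?_) ?_
      · have hf' := (mem_filter.mp (mem_filter.mp hf).1).1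
        refine mem_Maps.mpr ⟨fun v hv => if_neg hv, fun v hv => ?_⟩
        simp only [if_pos hv]
        exact (mem_For.mp hf').2.1 v (hn v hv)
      · intro f hf f' hf' h
        have e := (mem_filter.mp hf).2.trans (mem_filter.mp hf').2.symm
        funext v
        by_cases hv : v ∈ S
        · simpa [hv] using congrFun h v
        · have k : ∀ f, ¬ P.Red f v := fun f ⟨i, h, _⟩ => hv (hS i h)
          rw [← surg_not (k f), e, surg_not (k f')]
  have h2 : nf (For N nb) P.Good ≤ M * nf (For N nb) fun f => gr f ∈ P.TB := by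
    rw [nf_eq, nf_eq]; exact_mod_cast h1
  have h3 := nf_add_not (For N nb) (fun _ => True) P.Good
  simp only [true_and, nf_true] at h3
  have h4 := hK N
  have h5 := nf_nonneg (For N nb) fun f => gr f ∈ P.TB
  rw [div_le_div_iff₀ (by positivity) hZ]
  change nf (For N nb) P.Good + _ = _ at h3
  nlinarith

end Pool.Agent.P.MP_a28080_pr.R
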